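import Pool.Agent.Helper54.SH.Defs

/-! # Comb: the index sets for the topological count

PLAN. `hs s z = s f z + |G z|`. For `z ∈ [-1,1]` with `f z ≠ 0` let `idx z` be the number of roots of `f` in `[-1,z)`
(a number `≤ R := f.roots.toFinset.card ≤ ℓ`); if `idx z = idx z'` then `f` has no root between `z` and `z'`, so `f` has
constant sign on `uIcc z z'`. For each `j ≤ ℓ` in the image of `idx` choose `c j` with `f (c j) ≠ 0`, `idx (c j) = j`, and
`σ j = sign f (c j)`; so `0 < σ j * f (c j)`. Let `j ≈ j'` iff `σ j = σ j'` and `hs (σ j) > 0` on `uIcc (c j) (c j')` (an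
equivalence relation); `S` = the set of the minimal elements of the classes; `T` = those `j ∈ S` such that
`σ j f z ≤ |G z|` for all `z ∈ [-1,1]` with `hs (σ j) > 0` on `uIcc (c j) z`. For `j ∈ S`, `j ∉ T` choose `p j` violating
this, otherwise `p j = c j`.
* `hcov`: `hs s z > 0`; by `hA` there is `z'` with `s f z' > 0` and `hs s > 0` on `uIcc z z'`; `j = idx z'` and the minimal
  representative of the class of `j` do it (all the segments chain inside `hs s > 0`).
* `S.card ≤ ℓ + 1` as `S ⊆ range (ℓ+1)`.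
* `T ⊆ Ico 1 R`: if `j = idx (c j) = 0`, `σ j f > 0` on `[-1, c j]`, so `hs > 0` on `uIcc (c j) (-1)` and
  `σ j f (-1) > 0 = |G (-1)|`, contradiction with `j ∈ T`; the same with `j = R` and `1`.
* `T.card ≤ 2 Q.card`: by `hC` each `j ∈ T` has `r j ∈ Q` with `hs (σ j) > 0` on `uIcc (c j) (r j)`; `j ↦ (σ j, r j)` is
  injective on `T` (equal values give `j ≈ j'`, both minimal).
-/

set_option autoImplicit false

noncomputable section

namespace Pool.Agent.Helper54.SH

open Polynomial Set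

/-- number of roots to the left of `z` -/
def nroots (Z : Finset ℝ) (z : ℝ) : ℕ := (Z.filter (fun r => r < z)).card

theorem nroots_le (Z : Finset ℝ) (z : ℝ) : nroots Z z ≤ Z.card := Finset.card_filter_le _ _

theorem no_root_between {Z : Finset ℝ} {z z' : ℝ} (hzz : z ≤ z') (hz' : z' ∉ Z)
    (h : nroots Z z = nroots Z z') {r : ℝ} (hr : r ∈ Z) (hr1 : z ≤ r) (hr2 : r ≤ z') : False := by
  have hlt : r < z' := lt_of_le_of_ne hr2 (by rintro rfl; exact hz' hr)
  have hss : Z.filter (fun r => r < z) ⊂ Z.filter (fun r => r < z') := by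
    rw [Finset.ssubset_iff_of_subset]
    · exact ⟨r, by simp [hr, hlt], by simp [hr1]⟩
    · intro t ht
      simp only [Finset.mem_filter] at ht ⊢
      exact ⟨ht.1, ht.2.trans_le hzz⟩
  have := Finset.card_lt_card hss
  unfold nroots at h
  omega

/-- a continuous function without zeros on `uIcc z z'` keeps its sign -/
theorem sign_const {F : ℝ → ℝ} (hF : Continuous F) {z z' : ℝ} (h0 : ∀ t ∈ uIcc z z', F t ≠ 0)
    (h : 0 < F z) : ∀ t ∈ uIcc z z', 0 < F t := by
  intro t ht
  by_contra hcon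
  push Not at hcon
  have hsub : uIcc z t ⊆ uIcc z z' := uIcc_subset_uIcc left_mem_uIcc ht
  have hiv : (0 : ℝ) ∈ F '' uIcc z t := by
    have := intermediate_value_uIcc (f := F) (a := z) (b := t) hF.continuousOn
    apply this
    rw [mem_uIcc]
    right
    exact ⟨hcon, h.le⟩
  obtain ⟨w, hw, hw0⟩ := hiv
  exact h0 w (hsub hw) hw0

/-- chaining of segments -/
theorem seg_chain {P : ℝ → Prop} {x y z : ℝ} (h1 : ∀ t ∈ uIcc x y, P t) (h2 : ∀ t ∈ uIcc y z, P t) :
    ∀ t ∈ uIcc x z, P t := by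
  intro t ht
  rcases le_total t y with h | h
  · rcases mem_uIcc.1 ht with ⟨h3, h4⟩ | ⟨h3, h4⟩
    · exact h1 t (mem_uIcc.2 (Or.inl ⟨h3, h⟩))
    · exact h2 t (mem_uIcc.2 (Or.inr ⟨h3, h⟩))
  · rcases mem_uIcc.1 ht with ⟨h3, h4⟩ | ⟨h3, h4⟩
    · exact h2 t (mem_uIcc.2 (Or.inl ⟨h, h4⟩))
    · exact h1 t (mem_uIcc.2 (Or.inr ⟨h, h4⟩))

theorem seg_symm {P : ℝ → Prop} {x y : ℝ} (h1 : ∀ t ∈ uIcc x y, P t) : ∀ t ∈ uIcc y x, P t := by
  rw [uIcc_comm]; exact h1

theorem exists_data (ℓ : ℕ) (f : ℝ[X]) (hf0 : f ≠ 0) (hdeg : f.natDegree ≤ ℓ) (G : ℝ → ℝ)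
    (hG : ContinuousOn G (Icc (-1) 1)) (hG1 : G 1 = 0) (hG2 : G (-1) = 0)
    (Q : Finset ℝ)
    (hA : ∀ s : ℝ, (s = 1 ∨ s = -1) → ∀ z ∈ Icc (-1 : ℝ) 1, 0 < s * f.eval z + |G z| →
      ∃ z' ∈ Icc (-1 : ℝ) 1, 0 < s * f.eval z' ∧ ∀ t ∈ uIcc z z', 0 < s * f.eval t + |G t|)
    (hC : ∀ s : ℝ, (s = 1 ∨ s = -1) → ∀ z ∈ Icc (-1 : ℝ) 1, 0 < s * f.eval z + |G z| →
      (∀ z' ∈ Icc (-1 : ℝ) 1, (∀ t ∈ uIcc z z', 0 < s * f.eval t + |G t|) →
        s * f.eval z' ≤ |G z'|) →
      ∃ r ∈ Q, r ∈ Icc (-1 : ℝ) 1 ∧ ∀ t ∈ uIcc z r, 0 < s * f.eval t + |G t|) :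
    ∃ (S T : Finset ℕ) (σ p : ℕ → ℝ), T ⊆ S ∧ S.card ≤ ℓ + 1 ∧ T.card ≤ 2 * Q.card ∧
      T.card ≤ ℓ - 1 ∧ (∀ i ∈ S, σ i = 1 ∨ σ i = -1) ∧ (∀ i ∈ S, p i ∈ Icc (-1 : ℝ) 1) ∧
      (∀ s : ℝ, (s = 1 ∨ s = -1) → ∀ z ∈ Icc (-1 : ℝ) 1, 0 < s * f.eval z + |G z| →
        ∃ i ∈ S, σ i = s ∧ ∀ t ∈ uIcc z (p i), 0 < s * f.eval t + |G t|) ∧
      (∀ i ∈ S, i ∉ T → |G (p i)| < σ i * f.eval (p i)) := by
  classical
  let Z : Finset ℝ := f.roots.toFinset
  have hZcard : Z.card ≤ ℓ :=
    (Multiset.toFinset_card_le _).trans ((card_roots' f).trans hdeg)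
  have hZmem : ∀ z, z ∈ Z ↔ f.eval z = 0 := by
    intro z
    simp [Z, hf0]
  have hfc : Continuous (fun z => f.eval z) := f.continuous
  -- valid indices
  let valid : ℕ → Prop := fun j => ∃ z ∈ Icc (-1 : ℝ) 1, f.eval z ≠ 0 ∧ nroots Z z = j
  have hc : ∀ j, ∃ z : ℝ, valid j → z ∈ Icc (-1 : ℝ) 1 ∧ f.eval z ≠ 0 ∧ nroots Z z = j := by
    intro j
    by_cases h : valid j
    · obtain ⟨z, h1, h2, h3⟩ := h
      exact ⟨z, fun _ => ⟨h1, h2, h3⟩⟩
    · exact ⟨0, fun h' => absurd h' h⟩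
  choose c hc using hc
  let σ : ℕ → ℝ := fun j => if 0 < f.eval (c j) then 1 else -1
  have hσ : ∀ j, σ j = 1 ∨ σ j = -1 := by
    intro j
    by_cases h : 0 < f.eval (c j)
    · left; simp [σ, h]
    · right; simp [σ, h]
  have hσpos : ∀ j, valid j → 0 < σ j * f.eval (c j) := by
    intro j hj
    by_cases h : 0 < f.eval (c j)
    · simp only [σ, h, if_true]; linarith
    · have h1 := (hc j hj).2.1
      have h2 : f.eval (c j) < 0 := lt_of_le_of_ne (not_lt.1 h) h1
      simp only [σ, h, if_false]; linarith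
  -- same index: same sign interval
  have hsame : ∀ s : ℝ, (s = 1 ∨ s = -1) → ∀ z ∈ Icc (-1 : ℝ) 1, 0 < s * f.eval z →
      ∃ j, j ≤ ℓ ∧ valid j ∧ σ j = s ∧ ∀ t ∈ uIcc z (c j), 0 < s * f.eval t := by
    intro s hs z hz hpos
    have hfz : f.eval z ≠ 0 := by
      intro h; rw [h] at hpos; simp at hpos
    have hv : valid (nroots Z z) := ⟨z, hz, hfz, rfl⟩
    obtain ⟨h1, h2, h3⟩ := hc _ hv
    set j := nroots Z z with hj
    have h4 : ∀ t ∈ uIcc z (c j), (fun z => s * f.eval z) t ≠ 0 := by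
      intro t ht h0
      have h5 : f.eval t = 0 := by
        rcases hs with rfl | rfl <;> simpa using h0
      have h6 : t ∈ Z := (hZmem t).2 h5
      rcases mem_uIcc.1 ht with ⟨h7, h8⟩ | ⟨h7, h8⟩
      · exact no_root_between (h7.trans h8) (by rw [hZmem]; exact h2) (by rw [h3]) h6 h7 h8
      · exact no_root_between (h7.trans h8) (by rw [hZmem]; exact hfz) (by rw [h3]) h6 h7 h8
    have h9 := sign_const (continuous_const.mul hfc) h4 hpos
    refine ⟨j, (nroots_le Z z).trans hZcard, hv, ?_, h9⟩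
    have h10 : 0 < s * f.eval (c j) := h9 _ right_mem_uIcc
    have h11 := hσpos j hv
    rcases hs with rfl | rfl
    · have : 0 < f.eval (c j) := by linarith
      simp [σ, this]
    · have : ¬ 0 < f.eval (c j) := by linarith
      simp [σ, this]
  -- the equivalence relation
  let E : ℕ → ℕ → Prop := fun j j' => σ j = σ j' ∧
    ∀ t ∈ uIcc (c j) (c j'), 0 < σ j * f.eval t + |G t|
  have hEsymm : ∀ j j', E j j' → E j' j := by
    intro j j' h
    refine ⟨h.1.symm, ?_⟩
    rw [← h.1]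
    exact seg_symm h.2
  have hEtrans : ∀ j j' j'', E j j' → E j' j'' → E j j'' := by
    intro j j' j'' h h'
    refine ⟨h.1.trans h'.1, ?_⟩
    refine seg_chain h.2 ?_
    rw [h.1]
    exact h'.2
  have hErefl : ∀ j, valid j → E j j := by
    intro j hj
    refine ⟨rfl, fun t ht => ?_⟩
    rw [uIcc_self, mem_singleton_iff] at ht
    rw [ht]
    have := hσpos j hj
    have := abs_nonneg (G (c j))
    linarith
  let S : Finset ℕ := (Finset.range (ℓ + 1)).filter
    (fun j => valid j ∧ ∀ j' < j, valid j' → ¬ E j' j)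
  have hS : ∀ j, j ≤ ℓ → valid j → ∃ i ∈ S, E i j := by
    intro j
    induction j using Nat.strong_induction_on with
    | _ j ih =>
      intro hj hv
      by_cases h : ∃ j' < j, valid j' ∧ E j' j
      · obtain ⟨j', h1, h2, h3⟩ := h
        obtain ⟨i, hi, hE⟩ := ih j' h1 (by omega) h2
        exact ⟨i, hi, hEtrans _ _ _ hE h3⟩
      · push Not at h
        refine ⟨j, ?_, hErefl j hv⟩
        simp only [S, Finset.mem_filter, Finset.mem_range]
        exact ⟨by omega, hv, h⟩
  have hSv : ∀ i ∈ S, valid i := by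
    intro i hi
    simp only [S, Finset.mem_filter] at hi
    exact hi.2.1
  have hSmin : ∀ i ∈ S, ∀ j ∈ S, E i j → i = j := by
    intro i hi j hj h
    simp only [S, Finset.mem_filter] at hi hj
    rcases lt_trichotomy i j with h1 | h1 | h1
    · exact absurd h (hj.2.2 i h1 hi.2.1)
    · exact h1
    · exact absurd (hEsymm _ _ h) (hi.2.2 j h1 hj.2.1)
  let ty : ℕ → Prop := fun i => ∀ z ∈ Icc (-1 : ℝ) 1,
    (∀ t ∈ uIcc (c i) z, 0 < σ i * f.eval t + |G t|) → σ i * f.eval z ≤ |G z|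
  have hp : ∀ i, ∃ z : ℝ, (valid i → z ∈ Icc (-1 : ℝ) 1) ∧
      (valid i → ∀ t ∈ uIcc (c i) z, 0 < σ i * f.eval t + |G t|) ∧
      (¬ ty i → |G z| < σ i * f.eval z) := by
    intro i
    by_cases h : ty i
    · refine ⟨c i, fun hv => (hc i hv).1, fun hv => (hErefl i hv).2, fun h' => absurd h h'⟩
    · simp only [ty] at h
      push Not at h
      obtain ⟨z, h1, h2, h3⟩ := h
      exact ⟨z, fun _ => h1, fun _ => h2, fun _ => h3⟩
  choose p hp1 hp2 hp3 using hp
  let T : Finset ℕ := S.filter ty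
  have hTty : ∀ i ∈ T, i ∈ S ∧ ty i := by
    intro i hi
    simpa [T] using hi
  refine ⟨S, T, σ, p, Finset.filter_subset _ _, ?_, ?_, ?_, fun i _ => hσ i,
    fun i hi => hp1 i (hSv i hi), ?_, ?_⟩
  · exact (Finset.card_filter_le _ _).trans (by simp)
  · -- injection into `{±1} × Q`
    have hr : ∀ i, ∃ r : ℝ, i ∈ T → r ∈ Q ∧ ∀ t ∈ uIcc (c i) r, 0 < σ i * f.eval t + |G t| := by
      intro i
      by_cases h : i ∈ T
      · obtain ⟨h1, h2⟩ := hTty i h
        have hv := hSv i h1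
        obtain ⟨r, hr1, hr2, hr3⟩ := hC (σ i) (hσ i) (c i) (hc i hv).1
          ((hErefl i hv).2 _ left_mem_uIcc) h2
        exact ⟨r, fun _ => ⟨hr1, hr3⟩⟩
      · exact ⟨0, fun h' => absurd h' h⟩
    choose r hr using hr
    have hcard : T.card ≤ (({1, -1} : Finset ℝ) ×ˢ Q).card := by
      refine Finset.card_le_card_of_injOn (fun i => (σ i, r i)) ?_ ?_
      · intro i hi
        have hi' : i ∈ T := hi
        simp only [Finset.coe_product, Set.mem_prod, Finset.mem_coe, Finset.mem_insert,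
          Finset.mem_singleton]
        exact ⟨hσ i, (hr i hi').1⟩
      · intro i hi j hj hij
        have hi' : i ∈ T := hi
        have hj' : j ∈ T := hj
        simp only [Prod.mk.injEq] at hij
        refine hSmin i (hTty i hi').1 j (hTty j hj').1 ⟨hij.1, ?_⟩
        refine seg_chain (hr i hi').2 ?_
        rw [hij.1, hij.2]
        exact seg_symm (hr j hj').2
    have h2 : ({1, -1} : Finset ℝ).card = 2 := by
      rw [Finset.card_insert_of_notMem (by norm_num), Finset.card_singleton]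
    rw [Finset.card_product, h2] at hcard
    exact hcard
  · -- type one intervals avoid the poles
    have hsub : T ⊆ Finset.Ico 1 Z.card := by
      intro i hi
      obtain ⟨h1, h2⟩ := hTty i hi
      have hv := hSv i h1
      obtain ⟨h3, h4, h5⟩ := hc i hv
      rw [Finset.mem_Ico]
      constructor
      · by_contra hcon
        have hi0 : i = 0 := by omega
        -- no roots to the left of `c i`
        have h6 : ∀ t ∈ uIcc (c i) (-1), (fun z => σ i * f.eval z) t ≠ 0 := by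
          intro t ht h0
          have h7 : f.eval t = 0 := by
            rcases hσ i with h | h <;> rw [h] at h0 <;> simpa using h0
          have h8 : t ∈ Z := (hZmem t).2 h7
          rw [uIcc_of_ge h3.1] at ht
          have h9 : t < c i := lt_of_le_of_ne ht.2 (by rintro h; rw [h] at h7; exact h4 h7)
          have h10 : 0 < nroots Z (c i) := Finset.card_pos.2 ⟨t, by simp [h8, h9]⟩
          omega
        have h11 : ∀ t ∈ uIcc (c i) (-1), 0 < σ i * f.eval t :=
          sign_const (continuous_const.mul hfc) h6 (hσpos i hv)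
        have h12 := h2 (-1) ⟨le_refl _, by norm_num⟩ (fun t ht => by
          have h14 := h11 t ht
          have h15 := abs_nonneg (G t)
          linarith)
        have h13 := h11 (-1) right_mem_uIcc
        rw [hG2, abs_zero] at h12
        linarith
      · by_contra hcon
        have hiZ : i = Z.card := by
          have := nroots_le Z (c i)
          omega
        have hall : Z.filter (fun r => r < c i) = Z := by
          apply Finset.eq_of_subset_of_card_le (Finset.filter_subset _ _)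
          have : (Z.filter (fun r => r < c i)).card = i := h5
          rw [this, hiZ]
        have h6 : ∀ t ∈ uIcc (c i) 1, (fun z => σ i * f.eval z) t ≠ 0 := by
          intro t ht h0
          have h7 : f.eval t = 0 := by
            rcases hσ i with h | h <;> rw [h] at h0 <;> simpa using h0
          have h8 : t ∈ Z := (hZmem t).2 h7
          rw [uIcc_of_le h3.2] at ht
          rw [← hall] at h8
          have := (Finset.mem_filter.1 h8).2
          linarith [ht.1]
        have h11 : ∀ t ∈ uIcc (c i) 1, 0 < σ i * f.eval t :=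
          sign_const (continuous_const.mul hfc) h6 (hσpos i hv)
        have h12 := h2 1 ⟨by norm_num, le_refl _⟩ (fun t ht => by
          have h14 := h11 t ht
          have h15 := abs_nonneg (G t)
          linarith)
        have h13 := h11 1 right_mem_uIcc
        rw [hG1, abs_zero] at h12
        linarith
    have := Finset.card_le_card hsub
    rw [Nat.card_Ico] at this
    omega
  · intro s hs z hz hpos
    obtain ⟨z', hz', h1, h2⟩ := hA s hs z hz hpos
    obtain ⟨j, hj, hv, hσj, h3⟩ := hsame s hs z' hz' h1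
    obtain ⟨i, hi, hE⟩ := hS j hj hv
    refine ⟨i, hi, hE.1.trans hσj, ?_⟩
    refine seg_chain h2 (seg_chain (y := c j) ?_ (seg_chain (y := c i) ?_ ?_))
    · intro t ht
      have := h3 t ht
      have := abs_nonneg (G t)
      linarith
    · have := seg_symm hE.2
      rw [hE.1, hσj] at this
      exact this
    · have := hp2 i (hSv i hi)
      rw [hE.1, hσj] at this
      exact this
  · intro i hi hiT
    apply hp3 i
    intro hty
    exact hiT (by simp [T, hi, hty])

/-- the purely separated case `f = 0` -/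
theorem exists_data_zero (k n : ℕ) (hk : 1 ≤ k) (g : ℝ[X]) (hg : g ≠ 0) (hdeg : g.natDegree ≤ n) :
    ∃ (S : Finset ℕ) (σ p : ℕ → ℝ), S.card ≤ 2 * (n + 1) ∧
      (∀ i ∈ S, σ i = 1 ∨ σ i = -1) ∧ (∀ i ∈ S, p i ∈ Icc (-1 : ℝ) 1) ∧
      (∀ s : ℝ, (s = 1 ∨ s = -1) → ∀ z ∈ Icc (-1 : ℝ) 1, 0 < |GG k g z| →
        ∃ i ∈ S, σ i = s ∧ ∀ t ∈ uIcc z (p i), 0 < |GG k g t|) := by
  classical
  let Z : Finset ℝ := g.roots.toFinset
  have hZcard : Z.card ≤ n :=
    (Multiset.toFinset_card_le _).trans ((card_roots' g).trans hdeg)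
  have hZmem : ∀ z, z ∈ Z ↔ g.eval z = 0 := by
    intro z
    simp [Z, hg]
  let valid : ℕ → Prop := fun j => ∃ z ∈ Icc (-1 : ℝ) 1, GG k g z ≠ 0 ∧ nroots Z z = j
  have hc : ∀ j, ∃ z ∈ Icc (-1 : ℝ) 1, valid j → GG k g z ≠ 0 ∧ nroots Z z = j := by
    intro j
    by_cases h : valid j
    · obtain ⟨z, h1, h2, h3⟩ := h
      exact ⟨z, h1, fun _ => ⟨h2, h3⟩⟩
    · exact ⟨0, by norm_num, fun h' => absurd h' h⟩
  choose c hcI hc using hc
  -- nonvanishing of `GG`
  have hGG : ∀ z ∈ Icc (-1 : ℝ) 1, (GG k g z ≠ 0 ↔ z ∈ Ioo (-1 : ℝ) 1 ∧ g.eval z ≠ 0) := by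
    intro z hz
    constructor
    · intro h
      unfold GG at h
      have h1 := left_ne_zero_of_mul h
      have h2 := right_ne_zero_of_mul h
      refine ⟨?_, h2⟩
      have h3 : √(1 - z ^ 2) ≠ 0 := by
        intro h4
        rw [h4, zero_pow (by omega)] at h1
        exact h1 rfl
      have h5 : 0 < 1 - z ^ 2 := by
        by_contra hcon
        exact h3 (Real.sqrt_eq_zero_of_nonpos (not_lt.1 hcon))
      constructor <;> nlinarith [hz.1, hz.2]
    · rintro ⟨h1, h2⟩
      unfold GG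
      have : 0 < 1 - z ^ 2 := by nlinarith [h1.1, h1.2]
      exact mul_ne_zero (pow_ne_zero _ (Real.sqrt_pos.2 this).ne') h2
  refine ⟨Finset.range (2 * (n + 1)), fun i => if i < n + 1 then 1 else -1,
    fun i => if i < n + 1 then c i else c (i - (n + 1)), by simp, ?_, ?_, ?_⟩
  · intro i _
    by_cases h : i < n + 1
    · left; simp [h]
    · right; simp [h]
  · intro i _
    by_cases h : i < n + 1
    · simp only [h, if_true]; exact hcI i
    · simp only [h, if_false]; exact hcI _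
  · intro s hs z hz hpos
    have hz0 : GG k g z ≠ 0 := abs_pos.1 hpos
    have hv : valid (nroots Z z) := ⟨z, hz, hz0, rfl⟩
    obtain ⟨h2, h3⟩ := hc _ hv
    have hle : nroots Z z ≤ n := (nroots_le Z z).trans hZcard
    have hseg : ∀ t ∈ uIcc z (c (nroots Z z)), 0 < |GG k g t| := by
      intro t ht
      rw [abs_pos]
      obtain ⟨ha1, ha2⟩ := (hGG z hz).1 hz0
      obtain ⟨hb1, hb2⟩ := (hGG _ (hcI _)).1 h2
      have htI : t ∈ Ioo (-1 : ℝ) 1 := by
        rcases mem_uIcc.1 ht with ⟨h7, h8⟩ | ⟨h7, h8⟩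
        · exact ⟨lt_of_lt_of_le ha1.1 h7, lt_of_le_of_lt h8 hb1.2⟩
        · exact ⟨lt_of_lt_of_le hb1.1 h7, lt_of_le_of_lt h8 ha1.2⟩
      refine (hGG t ⟨htI.1.le, htI.2.le⟩).2 ⟨htI, fun h0 => ?_⟩
      have h6 : t ∈ Z := (hZmem t).2 h0
      rcases mem_uIcc.1 ht with ⟨h7, h8⟩ | ⟨h7, h8⟩
      · exact no_root_between (h7.trans h8) (by rw [hZmem]; exact hb2) (by rw [h3]) h6 h7 h8
      · exact no_root_between (h7.trans h8) (by rw [hZmem]; exact ha2) (by rw [h3]) h6 h7 h8
    rcases hs with rfl | rfl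
    · refine ⟨nroots Z z, by simp only [Finset.mem_range]; omega, ?_, ?_⟩
      · simp [show nroots Z z < n + 1 by omega]
      · simp only [show nroots Z z < n + 1 by omega, if_true]
        exact hseg
    · refine ⟨nroots Z z + (n + 1), by simp only [Finset.mem_range]; omega, ?_, ?_⟩
      · simp only [show ¬ (nroots Z z + (n + 1) < n + 1) by omega, if_false]
      · simp only [show ¬ (nroots Z z + (n + 1) < n + 1) by omega, if_false, Nat.add_sub_cancel]
        exact hseg

end Pool.Agent.Helper54.SH
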