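import Pool.Agent.Helper54.SH.Defs

/-! # Dec: a harmonic homogeneous polynomial is a sum of separated harmonics

PLAN (pure algebra). Let `v : MvPolynomial (Fin 3) ℂ := aeval ![(X 0 + X 1)/2, (X 0 - X 1)/(2 i), X 2] (map (algebraMap ℝ ℂ) u)`
(`w = X 0 = x + i y`, `w' = X 1 = x - i y`). It is homogeneous of degree `ℓ`, and
`4 ∂₀ ∂₁ v + ∂₂² v = 0` (chain rule; prove `pderiv i (aeval φ p) = ∑ j, aeval φ (pderiv j p) * pderiv i (φ j)` by
`MvPolynomial.induction_on` if it is not in Mathlib). Let `c a b` be the coefficient of `w^a w'^b z^(ℓ-a-b)`. Comparing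
coefficients of `w^a w'^b z^(n-2)`, `a + b + n = ℓ`, `n ≥ 2`:
`4 (a+1)(b+1) c (a+1) (b+1) + n (n-1) c a b = 0`. By induction on `b`: `c (b+m) b = dl ℓ m b * c m 0`
and `c b (b+m) = dl ℓ m b * c 0 m` for `2b + m ≤ ℓ` (in `dl`, `n = ℓ - m - 2b`; when `n ≤ 1` nothing is left to prove).
Evaluate at `w = ρ e^{iφ}`, `w' = ρ e^{-iφ}`, `z`: `u (pt z φ) = v(w,w',z) = ∑_{a+b≤ℓ} c a b ρ^(a+b) e^{i(a-b)φ} z^(ℓ-a-b)`
`= c 0 0 Gp ℓ 0 (z) + ∑_{m≥1} ρ^m Gp ℓ m (z) (c m 0 e^{imφ} + c 0 m e^{-imφ})` using `ρ^(2b) = (1-z²)^b`; take real parts,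
`c_m := c m 0 + conj (c 0 m)` for `m ≥ 1`, `c_0 := c 0 0` (no reality of the coefficients is needed).
-/

set_option autoImplicit false

noncomputable section

namespace Pool.Agent.Helper54.SH

open Polynomial Set

section algebra

open MvPolynomial

/-- chain rule -/
theorem pderiv_aeval' (φ : Fin 3 → MvPolynomial (Fin 3) ℂ) (p : MvPolynomial (Fin 3) ℂ) (i : Fin 3) :
    pderiv i (MvPolynomial.aeval φ p) =
      ∑ j : Fin 3, MvPolynomial.aeval φ (pderiv j p) * pderiv i (φ j) := by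
  induction p using MvPolynomial.induction_on with
  | C a =>
    have h1 : MvPolynomial.aeval φ (MvPolynomial.C a : MvPolynomial (Fin 3) ℂ) = MvPolynomial.C a := by
      simp [MvPolynomial.algebraMap_eq]
    rw [h1]
    simp
  | add p q hp hq =>
    simp only [map_add, hp, hq, add_mul, Finset.sum_add_distrib]
  | mul_X p n hp =>
    have e1 : ∀ j : Fin 3, MvPolynomial.aeval φ (pderiv j (p * MvPolynomial.X n)) * pderiv i (φ j) =
        MvPolynomial.aeval φ (pderiv j p) * pderiv i (φ j) * φ n +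
          MvPolynomial.aeval φ p * (MvPolynomial.aeval φ (pderiv j (MvPolynomial.X n : MvPolynomial (Fin 3) ℂ)) *
            pderiv i (φ j)) := by
      intro j
      rw [pderiv_mul, map_add, map_mul, map_mul, MvPolynomial.aeval_X]
      ring
    have e2 : ∑ j : Fin 3, MvPolynomial.aeval φ (pderiv j (MvPolynomial.X n : MvPolynomial (Fin 3) ℂ)) *
        pderiv i (φ j) = pderiv i (φ n) := by
      rw [Finset.sum_eq_single n]
      · rw [pderiv_X_self, map_one, one_mul]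
      · intro j _ hj
        rw [pderiv_X_of_ne (Ne.symm hj), map_zero, zero_mul]
      · intro h
        exact absurd (Finset.mem_univ n) h
    rw [Finset.sum_congr rfl (fun j _ => e1 j), Finset.sum_add_distrib, ← Finset.sum_mul,
      ← Finset.mul_sum, e2, ← hp, map_mul, MvPolynomial.aeval_X, pderiv_mul]

/-- exponent vectors -/
def mu (a b n : ℕ) : Fin 3 →₀ ℕ := Finsupp.single 0 a + Finsupp.single 1 b + Finsupp.single 2 n

theorem mu_apply (a b n : ℕ) : mu a b n 0 = a ∧ mu a b n 1 = b ∧ mu a b n 2 = n := by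
  refine ⟨?_, ?_, ?_⟩ <;> simp [mu]

theorem mu_eq (m : Fin 3 →₀ ℕ) : m = mu (m 0) (m 1) (m 2) := by
  ext i
  obtain ⟨h0, h1, h2⟩ := mu_apply (m 0) (m 1) (m 2)
  fin_cases i
  · exact h0.symm
  · exact h1.symm
  · exact h2.symm

theorem mu_add0 (a b n : ℕ) : mu a b n + Finsupp.single 0 1 = mu (a + 1) b n := by
  unfold mu
  rw [Finsupp.single_add]
  abel

theorem mu_add1 (a b n : ℕ) : mu a b n + Finsupp.single 1 1 = mu a (b + 1) n := by
  unfold mu
  rw [Finsupp.single_add 1 b 1]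
  abel

theorem mu_add2 (a b n : ℕ) : mu a b n + Finsupp.single 2 1 = mu a b (n + 1) := by
  unfold mu
  rw [Finsupp.single_add 2 n 1]
  abel

/-- the substitution `x = (w+w')/2`, `y = (w-w')/(2i)` -/
def sub3 : Fin 3 → MvPolynomial (Fin 3) ℂ :=
  ![MvPolynomial.C (1 / 2) * (MvPolynomial.X 0 + MvPolynomial.X 1),
    MvPolynomial.C (-Complex.I / 2) * (MvPolynomial.X 0 - MvPolynomial.X 1), MvPolynomial.X 2]

def vv (u : MvPolynomial (Fin 3) ℝ) : MvPolynomial (Fin 3) ℂ :=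
  MvPolynomial.aeval sub3 (MvPolynomial.map (algebraMap ℝ ℂ) u)

theorem vv_homogeneous {ℓ : ℕ} {u : MvPolynomial (Fin 3) ℝ} (hu : u.IsHomogeneous ℓ) :
    (vv u).IsHomogeneous ℓ := by
  have h := (hu.map (algebraMap ℝ ℂ)).aeval (n := 1) sub3 (by
    intro i
    fin_cases i
    · change (MvPolynomial.C (1 / 2) * (MvPolynomial.X 0 + MvPolynomial.X 1) :
        MvPolynomial (Fin 3) ℂ).IsHomogeneous 1
      have := (isHomogeneous_C (Fin 3) (1 / 2 : ℂ)).mul
        ((isHomogeneous_X ℂ (0 : Fin 3)).add (isHomogeneous_X ℂ (1 : Fin 3)))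
      simpa using this
    · change (MvPolynomial.C (-Complex.I / 2) * (MvPolynomial.X 0 - MvPolynomial.X 1) :
        MvPolynomial (Fin 3) ℂ).IsHomogeneous 1
      have := (isHomogeneous_C (Fin 3) (-Complex.I / 2 : ℂ)).mul
        ((isHomogeneous_X ℂ (0 : Fin 3)).sub (isHomogeneous_X ℂ (1 : Fin 3)))
      simpa using this
    · exact isHomogeneous_X ℂ (2 : Fin 3))
  rw [one_mul] at h
  exact h

theorem pderiv0_aeval (p : MvPolynomial (Fin 3) ℂ) : pderiv 0 (MvPolynomial.aeval sub3 p) =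
    MvPolynomial.C (1 / 2) * MvPolynomial.aeval sub3 (pderiv 0 p) +
      MvPolynomial.C (-Complex.I / 2) * MvPolynomial.aeval sub3 (pderiv 1 p) := by
  rw [pderiv_aeval', Fin.sum_univ_three]
  have h0 : pderiv 0 (sub3 0) = MvPolynomial.C (1 / 2) := by
    change pderiv 0 (MvPolynomial.C (1 / 2) * (MvPolynomial.X 0 + MvPolynomial.X 1) :
      MvPolynomial (Fin 3) ℂ) = _
    rw [pderiv_C_mul, map_add, pderiv_X_self, pderiv_X_of_ne (by decide)]
    simp
  have h1 : pderiv 0 (sub3 1) = MvPolynomial.C (-Complex.I / 2) := by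
    change pderiv 0 (MvPolynomial.C (-Complex.I / 2) * (MvPolynomial.X 0 - MvPolynomial.X 1) :
      MvPolynomial (Fin 3) ℂ) = _
    rw [pderiv_C_mul, map_sub, pderiv_X_self, pderiv_X_of_ne (by decide)]
    simp
  have h2 : pderiv 0 (sub3 2) = 0 := by
    change pderiv 0 (MvPolynomial.X 2 : MvPolynomial (Fin 3) ℂ) = _
    rw [pderiv_X_of_ne (by decide)]
  rw [h0, h1, h2]
  ring

theorem pderiv1_aeval (p : MvPolynomial (Fin 3) ℂ) : pderiv 1 (MvPolynomial.aeval sub3 p) =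
    MvPolynomial.C (1 / 2) * MvPolynomial.aeval sub3 (pderiv 0 p) +
      MvPolynomial.C (Complex.I / 2) * MvPolynomial.aeval sub3 (pderiv 1 p) := by
  rw [pderiv_aeval', Fin.sum_univ_three]
  have h0 : pderiv 1 (sub3 0) = MvPolynomial.C (1 / 2) := by
    change pderiv 1 (MvPolynomial.C (1 / 2) * (MvPolynomial.X 0 + MvPolynomial.X 1) :
      MvPolynomial (Fin 3) ℂ) = _
    rw [pderiv_C_mul, map_add, pderiv_X_self, pderiv_X_of_ne (by decide)]
    simp
  have h1 : pderiv 1 (sub3 1) = MvPolynomial.C (Complex.I / 2) := by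
    change pderiv 1 (MvPolynomial.C (-Complex.I / 2) * (MvPolynomial.X 0 - MvPolynomial.X 1) :
      MvPolynomial (Fin 3) ℂ) = _
    rw [pderiv_C_mul, map_sub, pderiv_X_self, pderiv_X_of_ne (by decide), zero_sub, mul_neg, mul_one,
      ← MvPolynomial.C_neg]
    congr 1
    ring
  have h2 : pderiv 1 (sub3 2) = 0 := by
    change pderiv 1 (MvPolynomial.X 2 : MvPolynomial (Fin 3) ℂ) = _
    rw [pderiv_X_of_ne (by decide)]
  rw [h0, h1, h2]
  ring

theorem pderiv2_aeval (p : MvPolynomial (Fin 3) ℂ) : pderiv 2 (MvPolynomial.aeval sub3 p) =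
    MvPolynomial.aeval sub3 (pderiv 2 p) := by
  rw [pderiv_aeval', Fin.sum_univ_three]
  have h0 : pderiv 2 (sub3 0) = 0 := by
    change pderiv 2 (MvPolynomial.C (1 / 2) * (MvPolynomial.X 0 + MvPolynomial.X 1) :
      MvPolynomial (Fin 3) ℂ) = _
    rw [pderiv_C_mul, map_add, pderiv_X_of_ne (by decide), pderiv_X_of_ne (by decide)]
    simp
  have h1 : pderiv 2 (sub3 1) = 0 := by
    change pderiv 2 (MvPolynomial.C (-Complex.I / 2) * (MvPolynomial.X 0 - MvPolynomial.X 1) :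
      MvPolynomial (Fin 3) ℂ) = _
    rw [pderiv_C_mul, map_sub, pderiv_X_of_ne (by decide), pderiv_X_of_ne (by decide)]
    simp
  have h2 : pderiv 2 (sub3 2) = 1 := by
    change pderiv 2 (MvPolynomial.X 2 : MvPolynomial (Fin 3) ℂ) = _
    rw [pderiv_X_self]
  rw [h0, h1, h2]
  ring

theorem pderiv_swap (p : MvPolynomial (Fin 3) ℂ) :
    pderiv 1 (pderiv 0 p) = pderiv 0 (pderiv 1 p) := by
  ext m
  rw [coeff_pderiv, coeff_pderiv, coeff_pderiv, coeff_pderiv]
  have : m + Finsupp.single 1 1 + Finsupp.single 0 1 = m + Finsupp.single 0 1 + Finsupp.single 1 1 := by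
    abel
  rw [this]
  simp
  ring

theorem vv_harm {u : MvPolynomial (Fin 3) ℝ}
    (harm : ∑ i : Fin 3, MvPolynomial.pderiv i (MvPolynomial.pderiv i u) = 0) :
    4 * pderiv 0 (pderiv 1 (vv u)) + pderiv 2 (pderiv 2 (vv u)) = 0 := by
  set U := MvPolynomial.map (algebraMap ℝ ℂ) u with hU
  have hh : pderiv 0 (pderiv 0 U) + pderiv 1 (pderiv 1 U) + pderiv 2 (pderiv 2 U) = 0 := by
    have := congrArg (MvPolynomial.map (algebraMap ℝ ℂ)) harm
    rw [Fin.sum_univ_three, map_add, map_add, map_zero, ← pderiv_map, ← pderiv_map, ← pderiv_map,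
      ← pderiv_map, ← pderiv_map, ← pderiv_map] at this
    exact this
  have h1 := congrArg (MvPolynomial.aeval sub3) hh
  rw [map_add, map_add, map_zero] at h1
  have hv : vv u = MvPolynomial.aeval sub3 U := rfl
  rw [hv, pderiv1_aeval, map_add, pderiv_C_mul, pderiv_C_mul, pderiv0_aeval, pderiv0_aeval,
    pderiv2_aeval, pderiv2_aeval, pderiv_swap, ← h1]
  have e1 : (MvPolynomial.C (1 / 2) * MvPolynomial.C (1 / 2) * 4 : MvPolynomial (Fin 3) ℂ) = 1 := by
    rw [show (4 : MvPolynomial (Fin 3) ℂ) = MvPolynomial.C 4 from (map_ofNat MvPolynomial.C 4).symm, ← MvPolynomial.C_mul,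
      ← MvPolynomial.C_mul]
    norm_num
  have e2 : (MvPolynomial.C (Complex.I / 2) * MvPolynomial.C (-Complex.I / 2) * 4 :
      MvPolynomial (Fin 3) ℂ) = 1 := by
    rw [show (4 : MvPolynomial (Fin 3) ℂ) = MvPolynomial.C 4 from (map_ofNat MvPolynomial.C 4).symm, ← MvPolynomial.C_mul,
      ← MvPolynomial.C_mul]
    have : Complex.I / 2 * (-Complex.I / 2) * 4 = 1 := by
      have := Complex.I_mul_I
      linear_combination (-1 : ℂ) * this
    rw [this, MvPolynomial.C_1]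
  have e3 : (MvPolynomial.C (-Complex.I / 2) : MvPolynomial (Fin 3) ℂ) =
      - MvPolynomial.C (Complex.I / 2) := by
    rw [← MvPolynomial.C_neg]; congr 1; ring
  linear_combination (MvPolynomial.aeval sub3 (pderiv 0 (pderiv 0 U))) * e1 +
    (MvPolynomial.aeval sub3 (pderiv 1 (pderiv 1 U))) * e2 +
    4 * MvPolynomial.C (1 / 2) * (MvPolynomial.aeval sub3 (pderiv 0 (pderiv 1 U))) * e3

/-- coefficients -/
def kp (u : MvPolynomial (Fin 3) ℝ) (a b n : ℕ) : ℂ := MvPolynomial.coeff (mu a b n) (vv u)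

theorem kp_rec {u : MvPolynomial (Fin 3) ℝ}
    (harm : ∑ i : Fin 3, MvPolynomial.pderiv i (MvPolynomial.pderiv i u) = 0) (a b n : ℕ) :
    4 * ((a : ℂ) + 1) * (b + 1) * kp u (a + 1) (b + 1) n + (n + 1) * (n + 2) * kp u a b (n + 2) = 0 := by
  have h := congrArg (MvPolynomial.coeff (mu a b n)) (vv_harm harm)
  rw [show (4 : MvPolynomial (Fin 3) ℂ) = MvPolynomial.C 4 from (map_ofNat MvPolynomial.C 4).symm, MvPolynomial.coeff_add,
    MvPolynomial.coeff_C_mul, coeff_pderiv, coeff_pderiv, coeff_pderiv, coeff_pderiv,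
    MvPolynomial.coeff_zero, mu_add0, mu_add1, mu_add2, mu_add2, (mu_apply _ _ _).1,
    (mu_apply _ _ _).2.1, (mu_apply _ _ _).2.2, (mu_apply _ _ _).2.2] at h
  unfold kp
  push_cast at h
  linear_combination h

theorem kp_zero {ℓ : ℕ} {u : MvPolynomial (Fin 3) ℝ} (hu : u.IsHomogeneous ℓ) {a b n : ℕ}
    (h : a + b + n ≠ ℓ) : kp u a b n = 0 := by
  by_contra hne
  have h1 := (vv_homogeneous hu) hne
  apply h
  rw [← h1, Finsupp.weight_apply, Finsupp.sum_fintype _ _ (by simp), Fin.sum_univ_three]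
  simp [(mu_apply a b n).1, (mu_apply a b n).2.1, (mu_apply a b n).2.2]

/-- `kp` along a diagonal -/
theorem kp_diag {ℓ : ℕ} {u : MvPolynomial (Fin 3) ℝ}
    (harm : ∑ i : Fin 3, MvPolynomial.pderiv i (MvPolynomial.pderiv i u) = 0) (m b : ℕ)
    (h : 2 * b + m ≤ ℓ) :
    kp u (b + m) b (ℓ - m - 2 * b) = dl ℓ m b * kp u m 0 (ℓ - m) ∧
    kp u b (b + m) (ℓ - m - 2 * b) = dl ℓ m b * kp u 0 m (ℓ - m) := by
  induction b with
  | zero => simp [dl]
  | succ b ih =>
    obtain ⟨ih1, ih2⟩ := ih (by omega)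
    obtain ⟨n, hn⟩ : ∃ n, ℓ - m - 2 * b = n + 2 := ⟨ℓ - m - 2 * b - 2, by omega⟩
    have hn' : ℓ - m - 2 * (b + 1) = n := by omega
    rw [hn] at ih1 ih2
    rw [hn']
    have r1 := kp_rec harm (b + m) b n
    have r2 := kp_rec harm b (b + m) n
    rw [ih1] at r1
    rw [ih2] at r2
    have hd : dl ℓ m (b + 1) = -(((n : ℝ) + 2) * (n + 1)) * dl ℓ m b /
        (4 * ((b : ℝ) + 1) * ((b : ℝ) + 1 + m)) := by
      rw [dl, hn]
      push_cast
      congr 2
      ring
    have hb : ((b : ℂ) + 1) ≠ 0 := by exact_mod_cast Nat.succ_ne_zero b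
    have hbm : ((b : ℂ) + 1 + m) ≠ 0 := by
      have : ((b + 1 + m : ℕ) : ℂ) ≠ 0 := by exact_mod_cast (by omega : b + 1 + m ≠ 0)
      simpa using this
    have hdc : ((dl ℓ m (b + 1) : ℝ) : ℂ) * (4 * ((b : ℂ) + 1) * ((b : ℂ) + 1 + m)) =
        -(((n : ℂ) + 2) * (n + 1)) * (dl ℓ m b : ℂ) := by
      rw [hd]
      push_cast
      field_simp
    have hne : (4 * ((b : ℂ) + 1) * ((b : ℂ) + 1 + m)) ≠ 0 :=
      mul_ne_zero (mul_ne_zero (by norm_num) hb) hbm
    constructor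
    · apply mul_left_cancel₀ hne
      rw [show b + 1 + m = b + m + 1 by ring]
      push_cast at r1
      linear_combination r1 + (-1 : ℂ) * kp u m 0 (ℓ - m) * hdc
    · apply mul_left_cancel₀ hne
      rw [show b + 1 + m = b + m + 1 by ring]
      push_cast at r2
      linear_combination r2 + (-1 : ℂ) * kp u 0 m (ℓ - m) * hdc

theorem vv_eval {ℓ : ℕ} {u : MvPolynomial (Fin 3) ℝ} (hu : u.IsHomogeneous ℓ) (x : Fin 3 → ℂ) :
    MvPolynomial.eval x (vv u) = ∑ q ∈ (Finset.range (ℓ + 1) ×ˢ Finset.range (ℓ + 1)).filter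
      (fun q => q.1 + q.2 ≤ ℓ), kp u q.1 q.2 (ℓ - q.1 - q.2) * (x 0 ^ q.1 * x 1 ^ q.2 *
        x 2 ^ (ℓ - q.1 - q.2)) := by
  classical
  have h1 : vv u = ∑ q ∈ (Finset.range (ℓ + 1) ×ˢ Finset.range (ℓ + 1)).filter
      (fun q => q.1 + q.2 ≤ ℓ),
      MvPolynomial.monomial (mu q.1 q.2 (ℓ - q.1 - q.2)) (kp u q.1 q.2 (ℓ - q.1 - q.2)) := by
    ext m
    rw [MvPolynomial.coeff_sum]
    simp only [MvPolynomial.coeff_monomial]
    by_cases hm : m 0 + m 1 + m 2 = ℓ
    · rw [Finset.sum_eq_single (m 0, m 1)]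
      · have : ℓ - m 0 - m 1 = m 2 := by omega
        simp only [this]
        rw [if_pos (mu_eq m).symm]
        unfold kp
        rw [← mu_eq m]
      · rintro ⟨a, b⟩ _ hne
        rw [if_neg]
        rintro rfl
        obtain ⟨e1, e2, e3⟩ := mu_apply a b (ℓ - a - b)
        apply hne
        simp [e1, e2]
      · intro hnot
        exfalso
        apply hnot
        simp only [Finset.mem_filter, Finset.mem_product, Finset.mem_range]
        omega
    · rw [Finset.sum_eq_zero]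
      · have := kp_zero hu hm
        unfold kp at this
        rw [← mu_eq m] at this
        exact this
      · rintro ⟨a, b⟩ hab
        rw [if_neg]
        rintro rfl
        obtain ⟨e1, e2, e3⟩ := mu_apply a b (ℓ - a - b)
        simp only [Finset.mem_filter, Finset.mem_product, Finset.mem_range] at hab
        simp only [e1, e2, e3] at hm
        omega
  conv_lhs => rw [h1]
  rw [map_sum]
  refine Finset.sum_congr rfl fun q _ => ?_
  rw [MvPolynomial.eval_monomial, Finsupp.prod_fintype _ _ (by simp), Fin.prod_univ_three,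
    (mu_apply _ _ _).1, (mu_apply _ _ _).2.1, (mu_apply _ _ _).2.2]

theorem vv_eval_pt (u : MvPolynomial (Fin 3) ℝ) (z φ : ℝ) :
    ((MvPolynomial.eval (pt z φ) u : ℝ) : ℂ) = MvPolynomial.eval
      ![(√(1 - z ^ 2) : ℂ) * Complex.exp (φ * Complex.I),
        (√(1 - z ^ 2) : ℂ) * Complex.exp (-φ * Complex.I), (z : ℂ)] (vv u) := by
  have h1 : ((MvPolynomial.eval (pt z φ) u : ℝ) : ℂ) =
      MvPolynomial.eval (fun i => ((pt z φ i : ℝ) : ℂ)) (MvPolynomial.map (algebraMap ℝ ℂ) u) := by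
    rw [MvPolynomial.eval_map]
    have := MvPolynomial.eval₂_comp_left (algebraMap ℝ ℂ) (RingHom.id ℝ) (pt z φ) u
    rw [MvPolynomial.eval₂_id] at this
    rw [← Complex.coe_algebraMap, this]
    rfl
  rw [h1]
  unfold vv
  rw [MvPolynomial.aeval_def, MvPolynomial.eval₂_comp_left]
  change _ = MvPolynomial.eval₂ _ _ _
  rw [MvPolynomial.eval₂_eq_eval_map]
  have h2 : (MvPolynomial.eval ![(√(1 - z ^ 2) : ℂ) * Complex.exp (φ * Complex.I),
        (√(1 - z ^ 2) : ℂ) * Complex.exp (-φ * Complex.I), (z : ℂ)]).comp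
        (algebraMap ℂ (MvPolynomial (Fin 3) ℂ)) = RingHom.id ℂ := by
    ext x
    simp [MvPolynomial.algebraMap_eq]
  rw [h2, MvPolynomial.map_id]
  congr 1
  have hs : (√(1 - z ^ 2) : ℂ) * (Complex.exp (φ * Complex.I) + Complex.exp (-φ * Complex.I)) / 2 =
      (√(1 - z ^ 2) : ℂ) * Complex.cos φ := by
    rw [Complex.cos]; ring
  have hs' : (√(1 - z ^ 2) : ℂ) * (Complex.exp (φ * Complex.I) - Complex.exp (-φ * Complex.I)) *
      (-Complex.I / 2) = (√(1 - z ^ 2) : ℂ) * Complex.sin φ := by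
    rw [Complex.sin]; ring
  congr 1
  funext i
  fin_cases i
  · change (((√(1 - z ^ 2) * Real.cos φ : ℝ)) : ℂ) = MvPolynomial.eval _
      (MvPolynomial.C (1 / 2) * (MvPolynomial.X 0 + MvPolynomial.X 1))
    simp only [map_mul, map_add, MvPolynomial.eval_C, MvPolynomial.eval_X, Matrix.cons_val_zero,
      Matrix.cons_val_one]
    push_cast
    linear_combination -hs
  · change (((√(1 - z ^ 2) * Real.sin φ : ℝ)) : ℂ) = MvPolynomial.eval _
      (MvPolynomial.C (-Complex.I / 2) * (MvPolynomial.X 0 - MvPolynomial.X 1))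
    simp only [map_mul, map_sub, MvPolynomial.eval_C, MvPolynomial.eval_X, Matrix.cons_val_zero,
      Matrix.cons_val_one]
    push_cast
    linear_combination -hs'
  · change ((z : ℝ) : ℂ) = MvPolynomial.eval _ (MvPolynomial.X 2)
    rw [MvPolynomial.eval_X]
    rfl

end algebra

/-- reorganization of a triangular sum along diagonals -/
theorem tri_sum (ℓ : ℕ) (F : ℕ → ℕ → ℂ) :
    ∑ q ∈ (Finset.range (ℓ + 1) ×ˢ Finset.range (ℓ + 1)).filter (fun q => q.1 + q.2 ≤ ℓ), F q.1 q.2 =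
      ∑ m ∈ Finset.range (ℓ + 1), ∑ b ∈ Finset.range ((ℓ - m) / 2 + 1),
        (F (b + m) b + if m = 0 then 0 else F b (b + m)) := by
  classical
  set A := (Finset.range (ℓ + 1) ×ˢ Finset.range (ℓ + 1)).filter (fun q => q.1 + q.2 ≤ ℓ) with hA
  have hmemA : ∀ q, q ∈ A ↔ q.1 + q.2 ≤ ℓ := by
    intro q
    simp only [hA, Finset.mem_filter, Finset.mem_product, Finset.mem_range]
    omega
  rw [← Finset.sum_filter_add_sum_filter_not A (fun q => q.2 ≤ q.1)]
  have e1 : ∑ q ∈ A.filter (fun q => q.2 ≤ q.1), F q.1 q.2 =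
      ∑ m ∈ Finset.range (ℓ + 1), ∑ b ∈ Finset.range ((ℓ - m) / 2 + 1), F (b + m) b := by
    rw [Finset.sum_sigma']
    refine Finset.sum_bij' (fun q _ => (⟨q.1 - q.2, q.2⟩ : Σ _ : ℕ, ℕ)) (fun q _ => (q.2 + q.1, q.2))
      ?_ ?_ ?_ ?_ ?_
    · rintro ⟨a, b⟩ h
      rw [Finset.mem_filter, hmemA] at h
      simp only [Finset.mem_sigma, Finset.mem_range] at h ⊢
      omega
    · rintro ⟨m, b⟩ h
      simp only [Finset.mem_sigma, Finset.mem_range] at h
      rw [Finset.mem_filter, hmemA]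
      simp only
      omega
    · rintro ⟨a, b⟩ h
      rw [Finset.mem_filter] at h
      simp only at h ⊢
      rw [Nat.add_sub_cancel' h.2]
    · rintro ⟨m, b⟩ h
      simp
    · rintro ⟨a, b⟩ h
      rw [Finset.mem_filter] at h
      simp only at h ⊢
      rw [Nat.add_sub_cancel' h.2]
  have e2 : ∑ q ∈ A.filter (fun q => ¬ q.2 ≤ q.1), F q.1 q.2 =
      ∑ m ∈ Finset.range (ℓ + 1), ∑ b ∈ Finset.range ((ℓ - m) / 2 + 1),
        (if m = 0 then 0 else F b (b + m)) := by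
    rw [Finset.sum_sigma', ← Finset.sum_filter_add_sum_filter_not _ (fun q : Σ _ : ℕ, ℕ => q.1 = 0)]
    rw [Finset.sum_eq_zero (s := Finset.filter (fun q : Σ _ : ℕ, ℕ => q.1 = 0) _), zero_add]
    · refine Finset.sum_bij' (fun q _ => (⟨q.2 - q.1, q.1⟩ : Σ _ : ℕ, ℕ))
        (fun q _ => (q.2, q.2 + q.1)) ?_ ?_ ?_ ?_ ?_
      · rintro ⟨a, b⟩ h
        rw [Finset.mem_filter, hmemA] at h
        simp only [Finset.mem_filter, Finset.mem_sigma, Finset.mem_range] at h ⊢
        omega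
      · rintro ⟨m, b⟩ h
        simp only [Finset.mem_filter, Finset.mem_sigma, Finset.mem_range] at h
        rw [Finset.mem_filter, hmemA]
        simp only
        omega
      · rintro ⟨a, b⟩ h
        rw [Finset.mem_filter] at h
        simp only [not_le] at h ⊢
        rw [Nat.add_sub_cancel' h.2.le]
      · rintro ⟨m, b⟩ h
        simp
      · rintro ⟨a, b⟩ h
        rw [Finset.mem_filter] at h
        simp only [not_le] at h ⊢
        rw [Nat.add_sub_cancel' h.2.le, if_neg (by omega)]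
    · rintro ⟨m, b⟩ h
      rw [Finset.mem_filter] at h
      simp only at h ⊢
      rw [if_pos h.2]
  rw [e1, e2, ← Finset.sum_add_distrib]
  refine Finset.sum_congr rfl fun m _ => ?_
  rw [← Finset.sum_add_distrib]

theorem decomp (ℓ : ℕ) (u : MvPolynomial (Fin 3) ℝ) (hu : u.IsHomogeneous ℓ)
    (harm : ∑ i : Fin 3, MvPolynomial.pderiv i (MvPolynomial.pderiv i u) = 0) :
    ∃ c : ℕ → ℂ, ∀ z ∈ Icc (-1 : ℝ) 1, ∀ φ : ℝ,
      MvPolynomial.eval (pt z φ) u =
        ∑ m ∈ Finset.range (ℓ + 1), (Gp ℓ m).eval z * √(1 - z ^ 2) ^ m *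
          (c m * Complex.exp (m * φ * Complex.I)).re := by
  refine ⟨fun m => kp u m 0 (ℓ - m) + if m = 0 then 0 else (starRingEnd ℂ) (kp u 0 m (ℓ - m)), ?_⟩
  intro z hz φ
  have hρ : (√(1 - z ^ 2)) ^ 2 = 1 - z ^ 2 := by
    rw [Real.sq_sqrt]
    nlinarith [hz.1, hz.2]
  set ρ := √(1 - z ^ 2) with hρdef
  have hρc : (ρ : ℂ) ^ 2 = 1 - (z : ℂ) ^ 2 := by
    exact_mod_cast hρ
  have h1 := vv_eval_pt u z φ
  rw [vv_eval hu, tri_sum ℓ (fun a b => kp u a b (ℓ - a - b) * (_ ^ a * _ ^ b * _ ^ (ℓ - a - b)))] at h1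
  simp only [Matrix.cons_val_zero, Matrix.cons_val_one, Matrix.cons_val] at h1
  have hexp : ∀ n : ℕ, Complex.exp (φ * Complex.I) ^ n * Complex.exp (-φ * Complex.I) ^ n = 1 := by
    intro n
    rw [← mul_pow, ← Complex.exp_add]
    have : (φ : ℂ) * Complex.I + -φ * Complex.I = 0 := by ring
    rw [this, Complex.exp_zero, one_pow]
  have hterm : ∀ m ∈ Finset.range (ℓ + 1), ∀ b ∈ Finset.range ((ℓ - m) / 2 + 1),
      (kp u (b + m) b (ℓ - (b + m) - b) * (((ρ : ℂ) * Complex.exp (φ * Complex.I)) ^ (b + m) *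
        ((ρ : ℂ) * Complex.exp (-φ * Complex.I)) ^ b * (z : ℂ) ^ (ℓ - (b + m) - b)) +
        if m = 0 then 0 else kp u b (b + m) (ℓ - b - (b + m)) *
          (((ρ : ℂ) * Complex.exp (φ * Complex.I)) ^ b *
          ((ρ : ℂ) * Complex.exp (-φ * Complex.I)) ^ (b + m) * (z : ℂ) ^ (ℓ - b - (b + m)))) =
      ((dl ℓ m b * (1 - z ^ 2) ^ b * z ^ (ℓ - m - 2 * b) : ℝ) : ℂ) * ((ρ : ℂ) ^ m *
        (kp u m 0 (ℓ - m) * Complex.exp (m * φ * Complex.I) +
          if m = 0 then 0 else kp u 0 m (ℓ - m) * Complex.exp (-(m * φ * Complex.I)))) := by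
    intro m hm b hb
    rw [Finset.mem_range] at hm hb
    have hle : 2 * b + m ≤ ℓ := by omega
    obtain ⟨k1, k2⟩ := kp_diag (ℓ := ℓ) harm m b hle
    have i1 : ℓ - (b + m) - b = ℓ - m - 2 * b := by omega
    have i2 : ℓ - b - (b + m) = ℓ - m - 2 * b := by omega
    rw [i1, i2, k1, k2]
    have p1 : ((ρ : ℂ) * Complex.exp (φ * Complex.I)) ^ (b + m) *
        ((ρ : ℂ) * Complex.exp (-φ * Complex.I)) ^ b =
        (1 - (z : ℂ) ^ 2) ^ b * ((ρ : ℂ) ^ m * Complex.exp (m * φ * Complex.I)) := by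
      rw [← hρc, mul_pow, mul_pow, pow_add, pow_add]
      have e := hexp b
      have e' : Complex.exp (φ * Complex.I) ^ m = Complex.exp (m * φ * Complex.I) := by
        rw [← Complex.exp_nat_mul]; congr 1; ring
      rw [e']
      linear_combination (ρ : ℂ) ^ b * (ρ : ℂ) ^ m * (ρ : ℂ) ^ b * Complex.exp (m * φ * Complex.I) * e
    have p2 : ((ρ : ℂ) * Complex.exp (φ * Complex.I)) ^ b *
        ((ρ : ℂ) * Complex.exp (-φ * Complex.I)) ^ (b + m) =
        (1 - (z : ℂ) ^ 2) ^ b * ((ρ : ℂ) ^ m * Complex.exp (-(m * φ * Complex.I))) := by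
      rw [← hρc, mul_pow, mul_pow, pow_add, pow_add]
      have e := hexp b
      have e' : Complex.exp (-φ * Complex.I) ^ m = Complex.exp (-(m * φ * Complex.I)) := by
        rw [← Complex.exp_nat_mul]; congr 1; ring
      rw [e']
      linear_combination (ρ : ℂ) ^ b * (ρ : ℂ) ^ m * (ρ : ℂ) ^ b *
        Complex.exp (-(m * φ * Complex.I)) * e
    rw [p1, p2]
    push_cast
    split_ifs with h0
    · ring
    · ring
  rw [Finset.sum_congr rfl (fun m hm => Finset.sum_congr rfl (hterm m hm))] at h1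
  have h2 := congrArg Complex.re h1
  rw [Complex.ofReal_re, Complex.re_sum] at h2
  rw [h2]
  refine Finset.sum_congr rfl fun m _ => ?_
  rw [← Finset.sum_mul, ← Complex.ofReal_sum]
  have hG : ∑ b ∈ Finset.range ((ℓ - m) / 2 + 1), dl ℓ m b * (1 - z ^ 2) ^ b * z ^ (ℓ - m - 2 * b) =
      (Gp ℓ m).eval z := by
    unfold Gp
    rw [eval_finsetSum]
    refine Finset.sum_congr rfl fun b _ => ?_
    simp
  rw [hG, ← Complex.ofReal_pow, Complex.re_ofReal_mul, Complex.re_ofReal_mul, ← mul_assoc]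
  congr 1
  have hconj : ∀ x : ℂ, (x * Complex.exp (-(m * φ * Complex.I))).re =
      ((starRingEnd ℂ) x * Complex.exp (m * φ * Complex.I)).re := by
    intro x
    have e1 : (starRingEnd ℂ) (x * Complex.exp (-(m * φ * Complex.I))) =
        (starRingEnd ℂ) x * Complex.exp (m * φ * Complex.I) := by
      rw [map_mul, ← Complex.exp_conj]
      congr 2
      simp
    rw [← e1, Complex.conj_re]
  rw [Complex.add_re, add_mul, Complex.add_re]
  congr 1
  split_ifs with h0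
  · simp
  · exact hconj _

end Pool.Agent.Helper54.SH
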