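import Mathlib

/-! # Spherical harmonics with a rotational symmetry of large order: definitions -/

set_option autoImplicit false

noncomputable section

namespace Pool.Agent.Helper54.SH

open Polynomial

/-- point of the unit sphere at height `z` and longitude `φ` -/
def pt (z φ : ℝ) : Fin 3 → ℝ := ![√(1 - z ^ 2) * Real.cos φ, √(1 - z ^ 2) * Real.sin φ, z]

/-- the complement of the nodal set of `u` in the unit sphere -/
abbrev Dom (u : (Fin 3 → ℝ) → ℝ) : Type :=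
  {x : Fin 3 → ℝ // ∑ i : Fin 3, x i ^ 2 = 1 ∧ u x ≠ 0}

/-- coefficients of the polynomial `Gp ℓ m` -/
def dl (ℓ m : ℕ) : ℕ → ℝ
  | 0 => 1
  | b + 1 => -(((ℓ - m - 2 * b : ℕ) : ℝ) * ((ℓ - m - 2 * b : ℕ) - 1 : ℝ)) * dl ℓ m b /
      (4 * ((b : ℝ) + 1) * ((b : ℝ) + 1 + m))

/-- the height polynomial of the separated spherical harmonic of degree `ℓ` and order `m`
(a multiple of the `m`-th derivative of the Legendre polynomial `P_ℓ`) -/
def Gp (ℓ m : ℕ) : ℝ[X] :=
  ∑ b ∈ Finset.range ((ℓ - m) / 2 + 1), C (dl ℓ m b) * (1 - X ^ 2) ^ b * X ^ (ℓ - m - 2 * b)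

/-- Legendre / Gegenbauer equation of degree `ℓ` and order `m` -/
def IsLeg (ℓ m : ℕ) (g : ℝ[X]) : Prop :=
  (1 - X ^ 2) * derivative (derivative g) - C (2 * ((m : ℝ) + 1)) * X * derivative g +
    C ((ℓ : ℝ) * (ℓ + 1) - m * (m + 1)) * g = 0

/-- the function `ρ^k g(z)`, `ρ = √(1 - z²)` -/
def GG (k : ℕ) (g : ℝ[X]) (z : ℝ) : ℝ := √(1 - z ^ 2) ^ k * g.eval z

/-- the height function `f + |G|` (the maximum of `f + G cos` on the circle of height `z`) -/
def hh (k : ℕ) (f g : ℝ[X]) (z : ℝ) : ℝ := f.eval z + |GG k g z|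

/-- the numerator of the derivative of `GG k g` -/
def qq (k : ℕ) (g : ℝ[X]) : ℝ[X] := (1 - X ^ 2) * derivative g - C (k : ℝ) * X * g

/-- the Wronskian `(1 - z²)(f' G - f G')`, `G = GG k g` -/
def WW (k : ℕ) (f g : ℝ[X]) (z : ℝ) : ℝ :=
  √(1 - z ^ 2) ^ k * ((1 - z ^ 2) * ((derivative f).eval z * g.eval z -
    f.eval z * (derivative g).eval z) + k * z * (f.eval z * g.eval z))

end Pool.Agent.Helper54.SH
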