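import Pool.Agent.Helper54.SH.Defs

/-! # Four: uniqueness of the coefficients of a real trigonometric polynomial

PLAN. Either integrate against `e^{-ijφ}` over `[0, 2π]`, or: with `w = e^{iφ}`,
`2 Re(d w^m) = d w^m + conj d w^(-m)`, multiply by `w^n` to get a polynomial in `w` of degree `≤ 2n` vanishing on the
(infinite) unit circle; its coefficient at `n + m` is `d m` (`m ≥ 1`), at `n` it is `2 Re (d 0)`.
-/

set_option autoImplicit false

noncomputable section

namespace Pool.Agent.Helper54.SH

open Polynomial in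
theorem four (n : ℕ) (d : ℕ → ℂ)
    (h : ∀ φ : ℝ, ∑ m ∈ Finset.range (n + 1), (d m * Complex.exp (m * φ * Complex.I)).re = 0) :
    (d 0).re = 0 ∧ ∀ m, 1 ≤ m → m ≤ n → d m = 0 := by
  classical
  set P : ℂ[X] := ∑ m ∈ Finset.range (n + 1),
    (C (d m) * X ^ (n + m) + C ((starRingEnd ℂ) (d m)) * X ^ (n - m)) with hP
  have hroot : ∀ φ : ℝ, P.IsRoot (Complex.exp (φ * Complex.I)) := by
    intro φ
    set w := Complex.exp (φ * Complex.I) with hw
    have hw0 : w ≠ 0 := Complex.exp_ne_zero _
    have hwc : (starRingEnd ℂ) w = w⁻¹ := by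
      rw [hw, ← Complex.exp_conj, ← Complex.exp_neg]
      congr 1
      simp
    have hpow : ∀ m : ℕ, Complex.exp (m * φ * Complex.I) = w ^ m := by
      intro m
      rw [hw, ← Complex.exp_nat_mul]
      congr 1
      ring
    have h1 : ∀ m ∈ Finset.range (n + 1), d m * w ^ (n + m) + (starRingEnd ℂ) (d m) * w ^ (n - m) =
        w ^ n * ((2 * (d m * Complex.exp (m * φ * Complex.I)).re : ℝ) : ℂ) := by
      intro m hm
      have hmn : m ≤ n := Nat.lt_succ_iff.1 (Finset.mem_range.1 hm)
      have h2 : ((2 * (d m * Complex.exp (m * φ * Complex.I)).re : ℝ) : ℂ) =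
          d m * w ^ m + (starRingEnd ℂ) (d m) * (w⁻¹) ^ m := by
        rw [Complex.ofReal_mul, Complex.re_eq_add_conj, hpow, map_mul, map_pow, hwc]
        push_cast
        ring
      rw [h2, mul_add, pow_add, pow_sub₀ _ hw0 hmn, inv_pow]
      ring
    rw [IsRoot, hP, eval_finset_sum]
    simp only [eval_add, eval_mul, eval_C, eval_pow, eval_X]
    rw [Finset.sum_congr rfl h1, ← Finset.mul_sum, ← Complex.ofReal_sum, ← Finset.mul_sum, h φ]
    simp
  have hinf : Set.Infinite {w | P.IsRoot w} := by
    refine Set.infinite_of_injOn_mapsTo (f := fun φ : ℝ => Complex.exp (φ * Complex.I))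
      (s := Set.Ioo (0 : ℝ) 1) ?_ (fun φ _ => hroot φ) (Set.Ioo_infinite zero_lt_one)
    intro a ha b hb hab
    have hpi := Real.pi_gt_three
    have e1 : Complex.log (Complex.exp (a * Complex.I)) = a * Complex.I :=
      Complex.log_exp (by simp; linarith [ha.1]) (by simp; linarith [ha.2])
    have e2 : Complex.log (Complex.exp (b * Complex.I)) = b * Complex.I :=
      Complex.log_exp (by simp; linarith [hb.1]) (by simp; linarith [hb.2])
    have e3 : (a : ℂ) * Complex.I = b * Complex.I := by
      rw [← e1, ← e2]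
      exact congrArg Complex.log hab
    have e4 := mul_right_cancel₀ Complex.I_ne_zero e3
    exact_mod_cast e4
  have hP0 : P = 0 := eq_zero_of_infinite_isRoot P hinf
  have hcoef : ∀ k, P.coeff k = ∑ m ∈ Finset.range (n + 1),
      ((if k = n + m then d m else 0) + (if k = n - m then (starRingEnd ℂ) (d m) else 0)) := by
    intro k
    rw [hP, finset_sum_coeff]
    refine Finset.sum_congr rfl fun m _ => ?_
    rw [coeff_add, coeff_C_mul_X_pow, coeff_C_mul_X_pow]
  constructor
  · have h1 := hcoef n
    rw [hP0, coeff_zero, Finset.sum_add_distrib, Finset.sum_eq_single 0, Finset.sum_eq_single 0] at h1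
    · simp only [add_zero, if_true, Nat.sub_zero] at h1
      have h2 := congrArg Complex.re h1
      simp only [Complex.zero_re, Complex.add_re, Complex.conj_re] at h2
      linarith
    · intro m hm hm0
      have : m ≤ n := Nat.lt_succ_iff.1 (Finset.mem_range.1 hm)
      rw [if_neg (by omega)]
    · intro h0
      exact absurd (Finset.mem_range.2 (Nat.succ_pos n)) h0
    · intro m hm hm0
      rw [if_neg (by omega)]
    · intro h0
      exact absurd (Finset.mem_range.2 (Nat.succ_pos n)) h0
  · intro m hm1 hmn
    have h1 := hcoef (n + m)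
    rw [hP0, coeff_zero, Finset.sum_add_distrib, Finset.sum_eq_single m] at h1
    · rw [if_pos rfl, Finset.sum_eq_zero, add_zero] at h1
      · exact h1.symm
      · intro k _
        rw [if_neg (by omega)]
    · intro k _ hk
      rw [if_neg (by omega)]
    · intro h0
      exact absurd (Finset.mem_range.2 (Nat.lt_succ_iff.2 hmn)) h0

end Pool.Agent.Helper54.SH
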