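import Pool.Agent.Helper54.SH.Defs

/-! # Leg: the polynomials `Gp ℓ m`

PLAN for `isLeg_Gp`. With `s = 1 - X²`, `n = ℓ - m - 2b`, `L[g] = s g'' - 2(m+1) X g' + (ℓ(ℓ+1) - m(m+1)) g` one has
`L[s^b X^n] = 4b(b+m) s^(b-1) X^n + n(n-1) s^b X^(n-2)` whenever `2b + n = ℓ - m` (the terms `s^b X^n` cancel:
`(2b+n)(2b+n+1+2m) = ℓ(ℓ+1) - m(m+1)`), and the sum over `b` telescopes because
`4(b+1)(b+1+m) dl (b+1) = - n(n-1) dl b` (and `n(n-1) = 0` for the last `b = (ℓ-m)/2`).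
`Gp_eval_one`: only `b = 0` survives at `z = ±1`.
-/

set_option autoImplicit false

noncomputable section

namespace Pool.Agent.Helper54.SH

open Polynomial

/-- the Legendre type operator -/
def Lop (ℓ m : ℕ) (g : ℝ[X]) : ℝ[X] :=
  (1 - X ^ 2) * derivative (derivative g) - C (2 * ((m : ℝ) + 1)) * X * derivative g +
    C ((ℓ : ℝ) * (ℓ + 1) - m * (m + 1)) * g

theorem Lop_add (ℓ m : ℕ) (g h : ℝ[X]) : Lop ℓ m (g + h) = Lop ℓ m g + Lop ℓ m h := by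
  unfold Lop
  simp only [derivative_add]
  ring

theorem Lop_C_mul (ℓ m : ℕ) (a : ℝ) (g : ℝ[X]) : Lop ℓ m (C a * g) = C a * Lop ℓ m g := by
  unfold Lop
  simp only [derivative_C_mul]
  ring

theorem Lop_sum (ℓ m : ℕ) (S : Finset ℕ) (g : ℕ → ℝ[X]) :
    Lop ℓ m (∑ b ∈ S, g b) = ∑ b ∈ S, Lop ℓ m (g b) := by
  classical
  induction S using Finset.induction_on with
  | empty => simp [Lop]
  | insert a S ha ih => rw [Finset.sum_insert ha, Finset.sum_insert ha, Lop_add, ih]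

/-- action on `s^b X^n` with `b ≥ 1`, `n ≥ 2` shifted -/
theorem Lop_term (ℓ m b n : ℕ) (h : 2 * b + n + m = ℓ) :
    Lop ℓ m ((1 - X ^ 2) ^ b * X ^ n) =
      C (4 * (b : ℝ) * (b + m)) * ((1 - X ^ 2) ^ (b - 1) * X ^ n) +
      C ((n : ℝ) * (n - 1)) * ((1 - X ^ 2) ^ b * X ^ (n - 2)) := by
  have hd : ∀ b n : ℕ, derivative ((1 - X ^ 2) ^ b * X ^ n : ℝ[X]) =
      C (-2 * (b : ℝ)) * ((1 - X ^ 2) ^ (b - 1) * X ^ (n + 1)) +
      C (n : ℝ) * ((1 - X ^ 2) ^ b * X ^ (n - 1)) := by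
    intro b n
    rw [derivative_mul, derivative_pow, derivative_X_pow, derivative_sub, derivative_one,
      derivative_X_pow]
    simp only [map_mul, map_neg, C_ofNat, Nat.cast_ofNat, map_natCast]
    ring
  subst h
  unfold Lop
  rw [hd, derivative_add, derivative_C_mul, derivative_C_mul, hd, hd]
  have s1 : ∀ b : ℕ, b + 1 + 1 - 1 = b + 1 := fun b => rfl
  have s2 : ∀ b : ℕ, b + 1 - 1 = b := fun b => rfl
  have s3 : ∀ b : ℕ, b + 1 + 1 - 2 = b := fun b => rfl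
  have s4 : 0 + 1 - 2 = 0 := rfl
  have s5 : 0 - 2 = 0 := rfl
  rcases b with _ | _ | b <;> rcases n with _ | _ | n <;>
    simp only [Nat.cast_add, Nat.cast_one, Nat.cast_zero, Nat.cast_ofNat, Nat.cast_mul, map_add,
      map_sub, map_mul, map_neg, map_one, map_zero, map_natCast, map_ofNat,
      Nat.zero_sub, Nat.sub_self, s1, s2, s3, s4, s5] <;> ring

theorem isLeg_Gp (ℓ m : ℕ) (h : m ≤ ℓ) : IsLeg ℓ m (Gp ℓ m) := by
  change Lop ℓ m (Gp ℓ m) = 0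
  unfold Gp
  rw [Lop_sum]
  have h1 : ∀ b ∈ Finset.range ((ℓ - m) / 2 + 1),
      Lop ℓ m (C (dl ℓ m b) * (1 - X ^ 2) ^ b * X ^ (ℓ - m - 2 * b)) =
      C (4 * (b : ℝ) * (b + m) * dl ℓ m b) * ((1 - X ^ 2) ^ (b - 1) * X ^ (ℓ - m - 2 * b)) +
      C (((ℓ - m - 2 * b : ℕ) : ℝ) * (((ℓ - m - 2 * b : ℕ) : ℝ) - 1) * dl ℓ m b) *
        ((1 - X ^ 2) ^ b * X ^ (ℓ - m - 2 * b - 2)) := by
    intro b hb
    rw [Finset.mem_range] at hb
    rw [mul_assoc, Lop_C_mul, Lop_term ℓ m b (ℓ - m - 2 * b) (by omega), mul_add]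
    congr 1
    · rw [← mul_assoc, ← C_mul]; congr 2; ring
    · rw [← mul_assoc, ← C_mul]; congr 2; ring
  rw [Finset.sum_congr rfl h1, Finset.sum_add_distrib, Finset.sum_range_succ' (fun b : ℕ =>
    C (4 * (b : ℝ) * (b + m) * dl ℓ m b) * ((1 - X ^ 2) ^ (b - 1) * X ^ (ℓ - m - 2 * b))),
    Finset.sum_range_succ (fun b : ℕ =>
      C (((ℓ - m - 2 * b : ℕ) : ℝ) * (((ℓ - m - 2 * b : ℕ) : ℝ) - 1) * dl ℓ m b) *
        ((1 - X ^ 2) ^ b * X ^ (ℓ - m - 2 * b - 2)))]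
  have h2 : C (4 * ((0 : ℕ) : ℝ) * (((0 : ℕ) : ℝ) + m) * dl ℓ m 0) *
      ((1 - X ^ 2) ^ (0 - 1) * X ^ (ℓ - m - 2 * 0)) = (0 : ℝ[X]) := by simp
  have h3 : ((ℓ - m - 2 * ((ℓ - m) / 2) : ℕ) : ℝ) * (((ℓ - m - 2 * ((ℓ - m) / 2) : ℕ) : ℝ) - 1) = 0 := by
    have : ℓ - m - 2 * ((ℓ - m) / 2) = 0 ∨ ℓ - m - 2 * ((ℓ - m) / 2) = 1 := by omega
    rcases this with h | h <;> rw [h] <;> simp
  rw [h2, h3, zero_mul, map_zero, zero_mul, add_zero, add_zero, ← Finset.sum_add_distrib]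
  refine Finset.sum_eq_zero fun b hb => ?_
  rw [Finset.mem_range] at hb
  have e1 : b + 1 - 1 = b := by omega
  have e2 : ℓ - m - 2 * (b + 1) = ℓ - m - 2 * b - 2 := by omega
  rw [e1, e2, ← add_mul, ← C_add]
  have hb1 : (4 * ((b : ℝ) + 1) * ((b : ℝ) + 1 + m)) ≠ 0 := by positivity
  have e3 : 4 * ((b + 1 : ℕ) : ℝ) * (((b + 1 : ℕ) : ℝ) + m) * dl ℓ m (b + 1) +
      ((ℓ - m - 2 * b : ℕ) : ℝ) * (((ℓ - m - 2 * b : ℕ) : ℝ) - 1) * dl ℓ m b = 0 := by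
    rw [dl]
    push_cast
    field_simp
    ring
  rw [e3, map_zero, zero_mul]

theorem Gp_eval_one (ℓ m : ℕ) : (Gp ℓ m).eval 1 = 1 := by
  unfold Gp
  rw [eval_finsetSum, Finset.sum_eq_single 0]
  · simp [dl]
  · intro b _ hb
    simp [hb]
  · simp

theorem Gp_eval_neg_one (ℓ m : ℕ) : (Gp ℓ m).eval (-1) = (-1) ^ (ℓ - m) := by
  unfold Gp
  rw [eval_finsetSum, Finset.sum_eq_single 0]
  · simp [dl]
  · intro b _ hb
    simp [hb]
  · simp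

theorem Gp_natDegree_le (ℓ m : ℕ) : (Gp ℓ m).natDegree ≤ ℓ - m := by
  unfold Gp
  refine natDegree_sum_le_of_forall_le _ _ fun b hb => ?_
  rw [Finset.mem_range] at hb
  have h1 : ((1 - X ^ 2 : ℝ[X]) ^ b).natDegree ≤ 2 * b := by
    refine natDegree_pow_le.trans ?_
    have h3 : (1 - X ^ 2 : ℝ[X]).natDegree ≤ 2 := by
      refine (natDegree_sub_le _ _).trans (max_le (by simp) (by simp))
    nlinarith
  refine natDegree_mul_le.trans ?_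
  have h2 := (natDegree_C_mul_le (dl ℓ m b) ((1 - X ^ 2 : ℝ[X]) ^ b))
  have h4 : (X ^ (ℓ - m - 2 * b) : ℝ[X]).natDegree = ℓ - m - 2 * b := natDegree_X_pow _
  omega

end Pool.Agent.Helper54.SH
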