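import Pool.Agent.Helper54.SH.OdeA

/-! # OdeC: second Sturm type lemma

Notation of OdeA. `(1-z²) G' = ρ^k qq(z)` on `(-1,1)` (`hasDerivAt_GG`).

PLAN. Suppose `h z₁ > 0` and `f z ≤ |G z|` for every `z` of the component `J = (a,b)` of
`{h > 0}` containing `z₁`. Then `J ⊂ (-1,1)` (at `±1`: `h = f > 0 = |G|` contradicts `htype`), `a, b` as in OdeA
(`h a = h b = 0`, `-1 < a`, `b < 1`), `|f| ≤ |G|` on `[a,b]`, `G ≠ 0` on `J` (if `G z = 0` then `f z ≤ 0` and `h z ≤ 0`),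
w.l.o.g. `G > 0` on `J`. Suppose `qq` has no root in `J`; then `G' ≠ 0` has constant sign on `J`.
Let `Φ = k² G² (f² - G²) + W²`; then `Φ' = 4 k² G G' (f² - G²)` on `J`. `W(a) ≥ 0 ≥ W(b)` (`WW_ends`).
Case `G' > 0`: `Φ' ≤ 0` on `J`. There is `t ∈ [a,b)` with `W t = 0`: otherwise `W > 0` on `[a,b)` (intermediate
values), so `f/G` (derivative `W/((1-z²)G²)`) is strictly increasing on `(a,b]`, with value `-1` at `b` (`G b > 0`), so
`f < -G` on `J`, contradiction with `h > 0`. `Φ(t) = k² G²(f² - G²) ≤ 0`, `Φ(b) = W(b)² ≥ 0` (as `f(b)² = G(b)²`), `Φ` is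
nonincreasing on `[t,b]`, so `Φ = 0` there, `Φ' = 0` on `(t,b)`, `f² = G²` there, so `f² = (1 - z²)^k g²` as polynomials
(infinitely many points); at `z = 1`: `f(1) = 0`, contradiction.
Case `G' < 0`: the same with `t ∈ (a,b]` and the end `a` (or apply the first case to `f(-z), g(-z)`).
-/

set_option autoImplicit false

noncomputable section

namespace Pool.Agent.Helper54.SH

open Polynomial Set

/-- the monotonicity argument for increasing `G` -/
private theorem core (c a b : ℝ) (hc : 0 < c) (hab : a < b) (F G F' G' w p : ℝ → ℝ)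
    (hF : ∀ z ∈ Icc a b, HasDerivAt F (F' z) z) (hG : ∀ z ∈ Icc a b, HasDerivAt G (G' z) z)
    (hp : ∀ z ∈ Icc a b, 0 < p z) (hw : ∀ z ∈ Icc a b, w z = p z * (F' z * G z - F z * G' z))
    (hw' : ∀ z ∈ Icc a b, HasDerivAt w (-c * F z * G z / p z) z)
    (hG' : ∀ z ∈ Ioo a b, 0 < G' z) (hGpos : ∀ z ∈ Ioo a b, 0 < G z)
    (hFG : ∀ z ∈ Ioo a b, -G z < F z) (hFG' : ∀ z ∈ Icc a b, F z ^ 2 ≤ G z ^ 2)
    (hFb : F b = -G b) (hwa : 0 ≤ w a) :
    ∃ t, t < b ∧ a ≤ t ∧ ∀ x ∈ Ioo t b, F x ^ 2 = G x ^ 2 := by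
  have hFc : ContinuousOn F (Icc a b) := fun z hz => (hF z hz).continuousAt.continuousWithinAt
  have hGc : ContinuousOn G (Icc a b) := fun z hz => (hG z hz).continuousAt.continuousWithinAt
  have hwc : ContinuousOn w (Icc a b) := fun z hz => (hw' z hz).continuousAt.continuousWithinAt
  have hGmono : StrictMonoOn G (Icc a b) := by
    refine strictMonoOn_of_deriv_pos (convex_Icc a b) hGc fun z hz => ?_
    rw [interior_Icc] at hz
    rw [(hG z (Ioo_subset_Icc_self hz)).deriv]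
    exact hG' z hz
  have hGb : 0 < G b := by
    have hm : (a + b) / 2 ∈ Ioo a b := ⟨by linarith, by linarith⟩
    exact (hGpos _ hm).trans (hGmono (Ioo_subset_Icc_self hm) ⟨hab.le, le_refl _⟩ hm.2)
  -- a point with `w ≤ 0`
  have h1 : ∃ t, t < b ∧ a ≤ t ∧ w t ≤ 0 := by
    by_contra hno
    push Not at hno
    have hm : (a + b) / 2 ∈ Ioo a b := ⟨by linarith, by linarith⟩
    set m := (a + b) / 2 with hmdef
    have hsub : Icc m b ⊆ Icc a b := Icc_subset_Icc hm.1.le (le_refl _)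
    have hGp : ∀ z ∈ Icc m b, 0 < G z := fun z hz =>
      lt_of_lt_of_le (hGpos m hm) (hGmono.monotoneOn ⟨hm.1.le, hm.2.le⟩ (hsub hz) hz.1)
    have hd : ∀ z ∈ Icc m b, HasDerivAt (fun z => F z / G z)
        ((F' z * G z - F z * G' z) / G z ^ 2) z := fun z hz =>
      (hF z (hsub hz)).div (hG z (hsub hz)) (hGp z hz).ne'
    have hmono : StrictMonoOn (fun z => F z / G z) (Icc m b) := by
      refine strictMonoOn_of_deriv_pos (convex_Icc m b)
        (fun z hz => (hd z hz).continuousAt.continuousWithinAt) fun z hz => ?_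
      rw [interior_Icc] at hz
      have hz' := Ioo_subset_Icc_self hz
      rw [(hd z hz').deriv]
      have h2 : 0 < w z := hno z hz.2 (hm.1.le.trans hz.1.le)
      rw [hw z (hsub hz')] at h2
      have h3 := hp z (hsub hz')
      exact div_pos ((mul_pos_iff_of_pos_left h3).1 h2) (pow_pos (hGp z hz') 2)
    have h2 := hmono ⟨le_refl _, hm.2.le⟩ ⟨hm.2.le, le_refl _⟩ hm.2
    simp only at h2
    rw [hFb, neg_div, div_self hGb.ne', div_lt_iff₀ (hGpos m hm)] at h2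
    have := hFG m hm
    linarith
  obtain ⟨t0, ht0b, ht0a, ht0w⟩ := h1
  obtain ⟨t, ht, htw⟩ : ∃ t ∈ Icc a t0, w t = 0 :=
    intermediate_value_Icc' ht0a (hwc.mono (Icc_subset_Icc (le_refl _) ht0b.le)) ⟨ht0w, hwa⟩
  have htb : t < b := lt_of_le_of_lt ht.2 ht0b
  refine ⟨t, htb, ht.1, ?_⟩
  have hsub : Icc t b ⊆ Icc a b := Icc_subset_Icc ht.1 (le_refl _)
  set Φ : ℝ → ℝ := fun z => c * (G z ^ 2 * (F z ^ 2 - G z ^ 2)) + w z ^ 2 with hΦ
  have hΦ' : ∀ z ∈ Icc a b, HasDerivAt Φ (4 * c * (G z * G' z) * (F z ^ 2 - G z ^ 2)) z := by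
    intro z hz
    have h2 := ((((hG z hz).pow 2).mul (((hF z hz).pow 2).sub ((hG z hz).pow 2))).const_mul c).add
      ((hw' z hz).pow 2)
    refine h2.congr_deriv ?_
    have h3 := (hp z hz).ne'
    simp only [hw z hz, Nat.add_one_sub_one, pow_one, Nat.cast_ofNat, Pi.pow_apply, Pi.sub_apply]
    field_simp
    ring
  have hanti : AntitoneOn Φ (Icc t b) := by
    refine antitoneOn_of_deriv_nonpos (convex_Icc t b)
      (fun z hz => (hΦ' z (hsub hz)).continuousAt.continuousWithinAt)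
      (fun z hz => ((hΦ' z (hsub (interior_subset hz))).differentiableAt).differentiableWithinAt)
      fun z hz => ?_
    rw [interior_Icc] at hz
    have hz' : z ∈ Ioo a b := ⟨lt_of_le_of_lt ht.1 hz.1, hz.2⟩
    rw [(hΦ' z (Ioo_subset_Icc_self hz')).deriv]
    have h2 := mul_pos (hGpos z hz') (hG' z hz')
    have h3 := hFG' z (Ioo_subset_Icc_self hz')
    exact mul_nonpos_of_nonneg_of_nonpos (by positivity) (by linarith)
  have hΦt : Φ t ≤ 0 := by
    have h3 := hFG' t (hsub ⟨le_refl _, htb.le⟩)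
    simp only [hΦ, htw]
    have : G t ^ 2 * (F t ^ 2 - G t ^ 2) ≤ 0 :=
      mul_nonpos_of_nonneg_of_nonpos (sq_nonneg _) (by linarith)
    nlinarith
  have hΦb : 0 ≤ Φ b := by
    simp only [hΦ, hFb]
    have h4 : c * (G b ^ 2 * ((-G b) ^ 2 - G b ^ 2)) + w b ^ 2 = w b ^ 2 := by ring
    rw [h4]
    exact sq_nonneg _
  have hΦ0 : ∀ x ∈ Icc t b, Φ x = 0 := by
    intro x hx
    have h2 := hanti ⟨le_refl _, htb.le⟩ hx hx.1
    have h3 := hanti hx ⟨htb.le, le_refl _⟩ hx.2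
    linarith
  intro x hx
  have hx' : x ∈ Ioo a b := ⟨lt_of_le_of_lt ht.1 hx.1, hx.2⟩
  have hev : Φ =ᶠ[nhds x] fun _ => 0 := by
    filter_upwards [Ioo_mem_nhds hx.1 hx.2] with y hy using hΦ0 y (Ioo_subset_Icc_self hy)
  have h2 : (4 * c * (G x * G' x) * (F x ^ 2 - G x ^ 2)) = 0 :=
    (hΦ' x (Ioo_subset_Icc_self hx')).unique ((hasDerivAt_const x (0 : ℝ)).congr_of_eventuallyEq hev)
  have h3 := mul_pos (hGpos x hx') (hG' x hx')
  have h4 : (4 * c * (G x * G' x)) ≠ 0 := by positivity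
  have h5 := (mul_eq_zero.1 h2).resolve_left h4
  linarith

/-- the monotonicity argument for decreasing `G` -/
private theorem core' (c a b : ℝ) (hc : 0 < c) (hab : a < b) (F G F' G' w p : ℝ → ℝ)
    (hF : ∀ z ∈ Icc a b, HasDerivAt F (F' z) z) (hG : ∀ z ∈ Icc a b, HasDerivAt G (G' z) z)
    (hp : ∀ z ∈ Icc a b, 0 < p z) (hw : ∀ z ∈ Icc a b, w z = p z * (F' z * G z - F z * G' z))
    (hw' : ∀ z ∈ Icc a b, HasDerivAt w (-c * F z * G z / p z) z)
    (hG' : ∀ z ∈ Ioo a b, G' z < 0) (hGpos : ∀ z ∈ Ioo a b, 0 < G z)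
    (hFG : ∀ z ∈ Ioo a b, -G z < F z) (hFG' : ∀ z ∈ Icc a b, F z ^ 2 ≤ G z ^ 2)
    (hFa : F a = -G a) (hwb : w b ≤ 0) :
    ∃ t, a < t ∧ t ≤ b ∧ ∀ x ∈ Ioo a t, F x ^ 2 = G x ^ 2 := by
  have mI : ∀ {z : ℝ}, z ∈ Icc (-b) (-a) → -z ∈ Icc a b := fun hz =>
    ⟨by linarith [hz.2], by linarith [hz.1]⟩
  have mO : ∀ {z : ℝ}, z ∈ Ioo (-b) (-a) → -z ∈ Ioo a b := fun hz =>
    ⟨by linarith [hz.2], by linarith [hz.1]⟩
  obtain ⟨t, ht1, ht2, ht3⟩ := core c (-b) (-a) hc (by linarith) (fun z => F (-z)) (fun z => G (-z))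
    (fun z => -F' (-z)) (fun z => -G' (-z)) (fun z => -w (-z)) (fun z => p (-z))
    (fun z hz => by simpa [Function.comp_def] using (hF _ (mI hz)).comp z (hasDerivAt_neg z))
    (fun z hz => by simpa [Function.comp_def] using (hG _ (mI hz)).comp z (hasDerivAt_neg z))
    (fun z hz => hp _ (mI hz))
    (fun z hz => by rw [hw _ (mI hz)]; ring)
    (fun z hz => by
      have h1 := ((hw' _ (mI hz)).comp z (hasDerivAt_neg z)).neg
      refine h1.congr_deriv ?_
      ring)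
    (fun z hz => by simpa using hG' _ (mO hz)) (fun z hz => hGpos _ (mO hz))
    (fun z hz => hFG _ (mO hz)) (fun z hz => hFG' _ (mI hz)) (by simpa using hFa)
    (by simpa using hwb)
  refine ⟨-t, by linarith, by linarith, fun x hx => ?_⟩
  have := ht3 (-x) ⟨by linarith [hx.2], by linarith [hx.1]⟩
  simpa using this

/-- The case `G > 0`. -/
private theorem main_pos (ℓ k : ℕ) (hk : 1 ≤ k) (f g : ℝ[X]) (hf : IsLeg ℓ 0 f) (hg : IsLeg ℓ k g)
    (hf1 : f.eval 1 ≠ 0) (a b : ℝ) (ha : -1 < a) (hab : a < b) (hb : b < 1)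
    (hG : ∀ t ∈ Ioo a b, 0 < GG k g t) (hfa : f.eval a = -GG k g a) (hfb : f.eval b = -GG k g b)
    (hpos : ∀ t ∈ Ioo a b, 0 < f.eval t + GG k g t) (hle : ∀ t ∈ Ioo a b, f.eval t ≤ GG k g t)
    (hq : ∀ t ∈ Ioo a b, (qq k g).eval t ≠ 0) : False := by
  have hI : ∀ {z : ℝ}, z ∈ Icc a b → z ∈ Ioo (-1 : ℝ) 1 := fun hz =>
    ⟨by linarith [hz.1], by linarith [hz.2]⟩
  have hp : ∀ z ∈ Icc a b, 0 < 1 - z ^ 2 := fun z hz => by
    have := hI hz
    nlinarith [this.1, this.2]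
  have hρ : ∀ z ∈ Icc a b, 0 < √(1 - z ^ 2) ^ k := fun z hz =>
    pow_pos (Real.sqrt_pos.2 (hp z hz)) k
  obtain ⟨hWa, hWb⟩ := WW_ends k f g a b ha hab hb hG hfa hfb hpos
  have hsq : ∀ z ∈ Icc a b, f.eval z ^ 2 ≤ GG k g z ^ 2 := by
    have hcl : closure (Ioo a b) ⊆ {z | f.eval z ^ 2 ≤ GG k g z ^ 2} := by
      refine closure_minimal (fun t ht => ?_) (isClosed_le (f.continuous.pow 2)
        ((continuous_GG k g).pow 2))
      have h1 := hpos t ht
      have h2 := hle t ht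
      simp only [mem_ofPred_eq]
      nlinarith
    rw [closure_Ioo hab.ne] at hcl
    exact fun z hz => hcl hz
  have hk0 : (0 : ℝ) < (k : ℝ) ^ 2 := by
    have : (0 : ℝ) < k := by exact_mod_cast hk
    positivity
  -- infinitely many points with `f² = G²`
  have hinf : ∀ s t : ℝ, s < t → -1 ≤ s → t ≤ 1 → (∀ x ∈ Ioo s t, f.eval x ^ 2 = GG k g x ^ 2) →
      False := by
    intro s t hst hs ht hx
    have hpoly : f ^ 2 = (1 - X ^ 2) ^ k * g ^ 2 := by
      refine Polynomial.eq_of_infinite_eval_eq _ _ ?_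
      refine (Ioo_infinite hst).mono fun x hx' => ?_
      have h1 := hx x hx'
      have h2 : 0 ≤ 1 - x ^ 2 := by nlinarith [hx'.1, hx'.2]
      simp only [mem_ofPred_eq, eval_pow, eval_mul, eval_sub, eval_one, eval_X]
      rw [h1, GG, mul_pow, ← pow_mul, mul_comm k 2, pow_mul, Real.sq_sqrt h2]
    have h3 := congrArg (eval 1) hpoly
    simp only [eval_pow, eval_mul, eval_sub, eval_one, eval_X, one_pow, sub_self] at h3
    rw [zero_pow (by omega), zero_mul] at h3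
    exact hf1 (pow_eq_zero_iff (two_ne_zero)|>.1 h3)
  have hFd : ∀ z ∈ Icc a b, HasDerivAt (fun z => f.eval z) ((derivative f).eval z) z :=
    fun z _ => f.hasDerivAt z
  have hGd : ∀ z ∈ Icc a b, HasDerivAt (GG k g) (√(1 - z ^ 2) ^ k * (qq k g).eval z / (1 - z ^ 2)) z :=
    fun z hz => hasDerivAt_GG k g z (hI hz)
  have hW : ∀ z ∈ Icc a b, WW k f g z = (1 - z ^ 2) * ((derivative f).eval z * GG k g z -
      f.eval z * (√(1 - z ^ 2) ^ k * (qq k g).eval z / (1 - z ^ 2))) := by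
    intro z hz
    have h1 := (hp z hz).ne'
    rw [WW_eq]
    field_simp
  have hWd : ∀ z ∈ Icc a b, HasDerivAt (WW k f g) (-(k : ℝ) ^ 2 * f.eval z * GG k g z / (1 - z ^ 2)) z :=
    fun z hz => hasDerivAt_WW ℓ k f g hf hg z (hI hz)
  -- constant sign of `qq`
  have hsign : (∀ t ∈ Ioo a b, 0 < (qq k g).eval t) ∨ (∀ t ∈ Ioo a b, (qq k g).eval t < 0) := by
    by_contra hno
    push Not at hno
    obtain ⟨⟨t1, ht1, hq1⟩, ⟨t2, ht2, hq2⟩⟩ := hno
    have h3 := isPreconnected_Ioo.intermediate_value ht1 ht2 (f := fun z => (qq k g).eval z)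
      (qq k g).continuous.continuousOn ⟨hq1, hq2⟩
    obtain ⟨t3, ht3, hq3⟩ := h3
    exact hq t3 ht3 hq3
  rcases hsign with hs | hs
  · obtain ⟨t, ht1, ht2, ht3⟩ := core ((k : ℝ) ^ 2) a b hk0 hab (fun z => f.eval z) (GG k g)
      (fun z => (derivative f).eval z) (fun z => √(1 - z ^ 2) ^ k * (qq k g).eval z / (1 - z ^ 2))
      (WW k f g) (fun z => 1 - z ^ 2) hFd hGd hp hW hWd
      (fun z hz => div_pos (mul_pos (hρ z (Ioo_subset_Icc_self hz)) (hs z hz))
        (hp z (Ioo_subset_Icc_self hz))) hG (fun z hz => by linarith [hpos z hz]) hsq hfb hWa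
    exact hinf t b ht1 (by linarith) hb.le ht3
  · obtain ⟨t, ht1, ht2, ht3⟩ := core' ((k : ℝ) ^ 2) a b hk0 hab (fun z => f.eval z) (GG k g)
      (fun z => (derivative f).eval z) (fun z => √(1 - z ^ 2) ^ k * (qq k g).eval z / (1 - z ^ 2))
      (WW k f g) (fun z => 1 - z ^ 2) hFd hGd hp hW hWd
      (fun z hz => div_neg_of_neg_of_pos (mul_neg_of_pos_of_neg (hρ z (Ioo_subset_Icc_self hz)) (hs z hz))
        (hp z (Ioo_subset_Icc_self hz))) hG (fun z hz => by linarith [hpos z hz]) hsq hfa hWb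
    exact hinf a t ht1 (by linarith) (by linarith) ht3

theorem exists_root_qq (ℓ k : ℕ) (hk : 1 ≤ k) (f g : ℝ[X]) (hf : IsLeg ℓ 0 f) (hg : IsLeg ℓ k g)
    (hf1 : f.eval 1 ≠ 0) (hf2 : f.eval (-1) ≠ 0)
    (z₁ : ℝ) (hz : z₁ ∈ Icc (-1 : ℝ) 1) (hpos : 0 < hh k f g z₁)
    (htype : ∀ z ∈ Icc (-1 : ℝ) 1, (∀ t ∈ uIcc z₁ z, 0 < hh k f g t) → f.eval z ≤ |GG k g z|) :
    ∃ r ∈ Icc (-1 : ℝ) 1, (qq k g).eval r = 0 ∧ ∀ t ∈ uIcc z₁ r, 0 < hh k f g t := by
  by_contra hno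
  push Not at hno
  have hG1 : GG k g 1 = 0 := by
    have : (0 : ℝ) ^ k = 0 := zero_pow (by omega)
    simp [GG, this]
  have hG2 : GG k g (-1) = 0 := by
    have : (0 : ℝ) ^ k = 0 := zero_pow (by omega)
    simp [GG, this]
  have hh1 : hh k f g 1 = f.eval 1 := by simp [hh, hG1]
  have hh2 : hh k f g (-1) = f.eval (-1) := by simp [hh, hG2]
  have hc := continuous_hh k f g
  -- the right end
  have hR : ∃ z₂ ∈ Icc z₁ 1, hh k f g z₂ ≤ 0 := by
    by_contra hn
    push Not at hn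
    have h1 := htype 1 ⟨by norm_num, le_refl _⟩ (fun t ht => by
      rw [uIcc_of_le hz.2] at ht
      exact hn t ht)
    rw [hG1, abs_zero] at h1
    have h2 := hn 1 ⟨hz.2, le_refl _⟩
    rw [hh1] at h2
    linarith
  have hL : ∃ z₂ ∈ Icc (-1) z₁, hh k f g z₂ ≤ 0 := by
    by_contra hn
    push Not at hn
    have h1 := htype (-1) ⟨le_refl _, by norm_num⟩ (fun t ht => by
      rw [uIcc_of_ge hz.1] at ht
      exact hn t ht)
    rw [hG2, abs_zero] at h1
    have h2 := hn (-1) ⟨le_refl _, hz.1⟩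
    rw [hh2] at h2
    linarith
  obtain ⟨z₂, hz₂, hz₂'⟩ := hR
  obtain ⟨z₀, hz₀, hz₀'⟩ := hL
  obtain ⟨b, hb, hb0, hbpos⟩ := exists_right _ hc z₁ z₂ hz₂.1 hz₂' hpos
  obtain ⟨a, ha, ha0, hapos⟩ := exists_left _ hc z₀ z₁ hz₀.2 hz₀' hpos
  have ha1 : -1 < a := lt_of_le_of_ne (hz₀.1.trans ha.1) (by
    rintro rfl
    rw [hh2] at ha0
    exact hf2 ha0)
  have hb1 : b < 1 := lt_of_le_of_ne (hb.2.trans hz₂.2) (by
    rintro rfl
    rw [hh1] at hb0
    exact hf1 hb0)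
  have hab : a < b := ha.2.trans hb.1
  have hposI : ∀ t ∈ Ioo a b, 0 < hh k f g t := by
    intro t ht
    rcases le_total t z₁ with h1 | h1
    · exact hapos t ⟨ht.1, h1⟩
    · exact hbpos t ⟨h1, ht.2⟩
  have hsub : ∀ z ∈ Ioo a b, ∀ t ∈ uIcc z₁ z, 0 < hh k f g t := by
    intro z hz' t ht
    refine hposI t ?_
    have h1 : z₁ ∈ Ioo a b := ⟨ha.2, hb.1⟩
    exact (ordConnected_Ioo.uIcc_subset h1 hz') ht
  have hle : ∀ t ∈ Ioo a b, f.eval t ≤ |GG k g t| := fun t ht =>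
    htype t ⟨by linarith [ht.1], by linarith [ht.2]⟩ (hsub t ht)
  have hq : ∀ t ∈ Ioo a b, (qq k g).eval t ≠ 0 := by
    intro t ht h0
    obtain ⟨s, hs, hs'⟩ := hno t ⟨by linarith [ht.1], by linarith [ht.2]⟩ h0
    exact absurd (hsub t ht s hs) (not_lt.2 hs')
  have hGne : ∀ t ∈ Ioo a b, GG k g t ≠ 0 := by
    intro t ht h0
    have h1 := hle t ht
    have h2 := hposI t ht
    rw [hh, h0, abs_zero] at h2
    rw [h0, abs_zero] at h1
    linarith
  have hsign : (∀ t ∈ Ioo a b, 0 < GG k g t) ∨ (∀ t ∈ Ioo a b, GG k g t < 0) := by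
    by_contra hn
    push Not at hn
    obtain ⟨⟨t1, ht1, hq1⟩, ⟨t2, ht2, hq2⟩⟩ := hn
    obtain ⟨t3, ht3, hq3⟩ := isPreconnected_Ioo.intermediate_value ht1 ht2
      (continuous_GG k g).continuousOn ⟨hq1, hq2⟩
    exact hGne t3 ht3 hq3
  have hnonneg : ∀ (s : ℝ), (∀ t ∈ Ioo a b, 0 < s * GG k g t) → ∀ t ∈ Icc a b, 0 ≤ s * GG k g t := by
    intro s hs
    have hcl : closure (Ioo a b) ⊆ {z | 0 ≤ s * GG k g z} :=
      closure_minimal (fun t ht => (hs t ht).le)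
        (isClosed_le continuous_const (continuous_const.mul (continuous_GG k g)))
    rw [closure_Ioo hab.ne] at hcl
    exact fun t ht => hcl ht
  have haI : a ∈ Icc a b := ⟨le_refl _, hab.le⟩
  have hbI : b ∈ Icc a b := ⟨hab.le, le_refl _⟩
  rcases hsign with hs | hs
  · have habs : ∀ t ∈ Icc a b, |GG k g t| = GG k g t := by
      intro t ht
      have := hnonneg 1 (fun t ht => by simpa using hs t ht) t ht
      rw [one_mul] at this
      exact abs_of_nonneg this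
    rw [hh, habs a haI] at ha0
    rw [hh, habs b hbI] at hb0
    refine main_pos ℓ k hk f g hf hg hf1 a b ha1 hab hb1 hs (by linarith) (by linarith)
      (fun t ht => ?_) (fun t ht => ?_) hq
    · have := hposI t ht
      rwa [hh, habs t (Ioo_subset_Icc_self ht)] at this
    · have := hle t ht
      rwa [habs t (Ioo_subset_Icc_self ht)] at this
  · have hGn : ∀ t, GG k (-g) t = -GG k g t := fun t => by simp [GG]
    have habs : ∀ t ∈ Icc a b, |GG k g t| = GG k (-g) t := by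
      intro t ht
      have := hnonneg (-1) (fun t ht => by simpa using hs t ht) t ht
      rw [hGn]
      exact abs_of_nonpos (by linarith)
    have hgn : IsLeg ℓ k (-g) := by
      have h1 : IsLeg ℓ k g := hg
      unfold IsLeg at h1 ⊢
      simp only [derivative_neg]
      linear_combination -h1
    have hqn : ∀ t ∈ Ioo a b, (qq k (-g)).eval t ≠ 0 := by
      intro t ht h0
      refine hq t ht ?_
      simp only [qq, derivative_neg, eval_sub, eval_mul, eval_neg] at h0 ⊢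
      linarith
    rw [hh, habs a haI] at ha0
    rw [hh, habs b hbI] at hb0
    refine main_pos ℓ k hk f (-g) hf hgn hf1 a b ha1 hab hb1 (fun t ht => ?_) (by linarith)
      (by linarith) (fun t ht => ?_) (fun t ht => ?_) hqn
    · rw [hGn]
      linarith [hs t ht]
    · have := hposI t ht
      rwa [hh, habs t (Ioo_subset_Icc_self ht)] at this
    · have := hle t ht
      rwa [habs t (Ioo_subset_Icc_self ht)] at this

end Pool.Agent.Helper54.SH
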