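import Pool.Agent.Helper54.SH.Dec
import Pool.Agent.Helper54.SH.Four
import Pool.Agent.Helper54.SH.Leg

/-! # Struct: the two hypotheses of the main theorem give `u = a Gp ℓ 0 + b ρ^k Gp ℓ k cos(kφ+α)`

PLAN. Take `c` from `decomp`, and a `z` in `(0,1)` (close to `1`) with `(Gp ℓ m).eval z ≠ 0` for all `m ≤ ℓ`
(`Gp_eval_one`, continuity); put `A m = (Gp ℓ m).eval z * ρ^m ≠ 0`.
`struct_rot`: the invariance gives `u (pt z (φ + 2π/k)) = u (pt z φ)`, so `four` applies to
`d m = A m * c m * (exp (2π i m/k) - 1)`; so `c m = 0` unless `k ∣ m`, i.e. `m ∈ {0, k}` as `m ≤ ℓ < 2k`.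
`struct_sum`: `(x 0 + x 1 I)^k = ρ^k e^{ikφ}` at `pt z φ`; apply `four` with `n = max ℓ k` to
`d m = (if m ≤ ℓ then A m * c m else 0) - (if m = 0 then F z else 0) - (if m = k then H z * ρ^k * c else 0)`; so
`c m = 0` for `m ≤ ℓ`, `m ≠ 0, k`.
Finally `Re (c_k e^{ikφ}) = |c_k| cos (kφ + arg c_k)`, `a = Re (c 0)`.
-/

set_option autoImplicit false

noncomputable section

namespace Pool.Agent.Helper54.SH

open Polynomial Set

private theorem exists_z (ℓ : ℕ) : ∃ z : ℝ, z ∈ Ioo (0 : ℝ) 1 ∧ ∀ m ≤ ℓ, (Gp ℓ m).eval z ≠ 0 := by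
  have h1 : ∀ m ∈ Finset.range (ℓ + 1), ∀ᶠ z in nhdsWithin (1 : ℝ) (Set.Iio 1),
      (Gp ℓ m).eval z ≠ 0 := by
    intro m _
    have hc : ContinuousAt (fun z : ℝ => (Gp ℓ m).eval z) 1 := (Gp ℓ m).continuous.continuousAt
    have : (Gp ℓ m).eval (1 : ℝ) ≠ 0 := by rw [Gp_eval_one]; exact one_ne_zero
    exact (hc.eventually_ne this).filter_mono nhdsWithin_le_nhds
  have h2 : ∀ᶠ z in nhdsWithin (1 : ℝ) (Set.Iio 1), z ∈ Ioo (0 : ℝ) 1 := Ioo_mem_nhdsLT one_pos
  have h3 := (Filter.eventually_all_finset (Finset.range (ℓ + 1))).2 h1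
  obtain ⟨z, hz, hz2⟩ := (h2.and h3).exists
  exact ⟨z, hz, fun m hm => hz2 m (Finset.mem_range.2 (by omega))⟩

private theorem re_mul_exp (w : ℂ) (t : ℝ) :
    (w * Complex.exp (t * Complex.I)).re = ‖w‖ * Real.cos (t + w.arg) := by
  conv_lhs => rw [← Complex.norm_mul_exp_arg_mul_I w]
  rw [mul_assoc, ← Complex.exp_add, Complex.re_ofReal_mul]
  congr 1
  rw [show (w.arg : ℂ) * Complex.I + t * Complex.I = ((t + w.arg : ℝ) : ℂ) * Complex.I by
    push_cast; ring, Complex.exp_ofReal_mul_I_re]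

private theorem finish (ℓ k : ℕ) (hk : 1 ≤ k) (c : ℕ → ℂ) (u : MvPolynomial (Fin 3) ℝ)
    (hu : ∀ z ∈ Icc (-1 : ℝ) 1, ∀ φ : ℝ, MvPolynomial.eval (pt z φ) u =
        ∑ m ∈ Finset.range (ℓ + 1), (Gp ℓ m).eval z * √(1 - z ^ 2) ^ m *
          (c m * Complex.exp (m * φ * Complex.I)).re)
    (hc : ∀ m, 1 ≤ m → m ≤ ℓ → m ≠ k → c m = 0) :
    ∃ a b α : ℝ, (ℓ < k → b = 0) ∧ ∀ z ∈ Icc (-1 : ℝ) 1, ∀ φ : ℝ,
      MvPolynomial.eval (pt z φ) u =
        a * (Gp ℓ 0).eval z + b * (√(1 - z ^ 2) ^ k * (Gp ℓ k).eval z) * Real.cos (k * φ + α) := by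
  by_cases hkl : k ≤ ℓ
  · refine ⟨(c 0).re, ‖c k‖, (c k).arg, fun h => absurd h (not_lt.2 hkl), fun z hz φ => ?_⟩
    rw [hu z hz φ, Finset.sum_eq_add 0 k (by omega)]
    · have e : (c k * Complex.exp (k * φ * Complex.I)).re =
          ‖c k‖ * Real.cos (k * φ + (c k).arg) := by
        have := re_mul_exp (c k) (k * φ)
        rw [← this]
        push_cast
        rfl
      rw [e]
      simp only [Nat.cast_zero, zero_mul, Complex.exp_zero, mul_one, pow_zero]
      ring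
    · rintro m hm ⟨h0, h1⟩
      rw [hc m (by omega) (by have := Finset.mem_range.1 hm; omega) h1]
      simp
    · intro h
      exact absurd (Finset.mem_range.2 (Nat.succ_pos _)) h
    · intro h
      exact absurd (Finset.mem_range.2 (by omega)) h
  · refine ⟨(c 0).re, 0, 0, fun _ => rfl, fun z hz φ => ?_⟩
    rw [hu z hz φ, Finset.sum_eq_single 0]
    · simp only [Nat.cast_zero, zero_mul, Complex.exp_zero, mul_one, pow_zero]
      ring
    · intro m hm h0
      have := Finset.mem_range.1 hm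
      rw [hc m (by omega) (by omega) (by omega)]
      simp
    · intro h
      exact absurd (Finset.mem_range.2 (Nat.succ_pos _)) h

theorem struct_rot (ℓ k : ℕ) (hk : 1 ≤ k) (h2 : ℓ < 2 * k) (u : MvPolynomial (Fin 3) ℝ)
    (hu : u.IsHomogeneous ℓ)
    (harm : ∑ i : Fin 3, MvPolynomial.pderiv i (MvPolynomial.pderiv i u) = 0)
    (hrot : ∀ x : Fin 3 → ℝ, MvPolynomial.eval
      ![Real.cos (2 * Real.pi / k) * x 0 - Real.sin (2 * Real.pi / k) * x 1,
        Real.sin (2 * Real.pi / k) * x 0 + Real.cos (2 * Real.pi / k) * x 1, x 2] u =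
      MvPolynomial.eval x u) :
    ∃ a b α : ℝ, (ℓ < k → b = 0) ∧ ∀ z ∈ Icc (-1 : ℝ) 1, ∀ φ : ℝ,
      MvPolynomial.eval (pt z φ) u =
        a * (Gp ℓ 0).eval z + b * (√(1 - z ^ 2) ^ k * (Gp ℓ k).eval z) * Real.cos (k * φ + α) := by
  obtain ⟨c, hc⟩ := decomp ℓ u hu harm
  obtain ⟨z, hz, hz0⟩ := exists_z ℓ
  have hzI : z ∈ Icc (-1 : ℝ) 1 := ⟨by linarith [hz.1], hz.2.le⟩
  have hρ : 0 < √(1 - z ^ 2) := Real.sqrt_pos.2 (by nlinarith [hz.1, hz.2])
  refine finish ℓ k hk c u hc fun m h1 h2m hmk => ?_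
  have hrot' : ∀ φ : ℝ, MvPolynomial.eval (pt z (φ + 2 * Real.pi / k)) u =
      MvPolynomial.eval (pt z φ) u := by
    intro φ
    rw [← hrot (pt z φ)]
    refine congrArg (fun y => MvPolynomial.eval y u) ?_
    ext i
    fin_cases i
    · simp [pt, Real.cos_add]; ring
    · simp [pt, Real.sin_add]; ring
    · simp [pt]
  have hd := (four ℓ (fun m => (((Gp ℓ m).eval z * √(1 - z ^ 2) ^ m : ℝ) : ℂ) * (c m *
    (Complex.exp (m * ((2 * Real.pi / k : ℝ) : ℂ) * Complex.I) - 1))) (by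
      intro φ
      have e := hrot' φ
      rw [hc z hzI, hc z hzI, ← sub_eq_zero, ← Finset.sum_sub_distrib] at e
      rw [← e]
      refine Finset.sum_congr rfl fun m _ => ?_
      have e1 : Complex.exp (m * ((φ + 2 * Real.pi / k : ℝ) : ℂ) * Complex.I) =
          Complex.exp (m * φ * Complex.I) *
            Complex.exp (m * ((2 * Real.pi / k : ℝ) : ℂ) * Complex.I) := by
        rw [← Complex.exp_add]
        congr 1
        push_cast
        ring
      rw [e1, mul_assoc, Complex.re_ofReal_mul, ← mul_sub, ← Complex.sub_re]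
      congr 2
      ring)).2 m h1 h2m
  have hA : (((Gp ℓ m).eval z * √(1 - z ^ 2) ^ m : ℝ) : ℂ) ≠ 0 := by
    rw [Complex.ofReal_ne_zero]
    exact mul_ne_zero (hz0 m h2m) (pow_pos hρ m).ne'
  rcases mul_eq_zero.1 ((mul_eq_zero.1 hd).resolve_left hA) with h3 | h3
  · exact h3
  exfalso
  rw [sub_eq_zero, Complex.exp_eq_one_iff] at h3
  obtain ⟨n, hn⟩ := h3
  have hk0 : (k : ℂ) ≠ 0 := by
    have : k ≠ 0 := by omega
    exact_mod_cast this
  have hpi : (2 * Real.pi * Complex.I : ℂ) ≠ 0 := Complex.two_pi_I_ne_zero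
  have h4 : (m : ℂ) = n * k := by
    have e : (2 * Real.pi * Complex.I : ℂ) * m = (2 * Real.pi * Complex.I : ℂ) * (n * k) := by
      push_cast at hn
      field_simp at hn
      linear_combination (2 * Real.pi * Complex.I : ℂ) * hn
    exact mul_left_cancel₀ hpi e
  have h5 : (m : ℤ) = n * k := by exact_mod_cast h4
  have h6 : 0 < n := by
    by_contra h
    have : n * (k : ℤ) ≤ 0 := mul_nonpos_of_nonpos_of_nonneg (not_lt.1 h) (by positivity)
    omega
  have h7 : n < 2 := by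
    by_contra h
    have : 2 * (k : ℤ) ≤ n * k := mul_le_mul_of_nonneg_right (not_lt.1 h) (by positivity)
    omega
  have h8 : n = 1 := by omega
  rw [h8] at h5
  omega

theorem struct_sum (ℓ k : ℕ) (hk : 1 ≤ k) (u : MvPolynomial (Fin 3) ℝ)
    (hu : u.IsHomogeneous ℓ)
    (harm : ∑ i : Fin 3, MvPolynomial.pderiv i (MvPolynomial.pderiv i u) = 0)
    (F H : ℝ → ℝ) (c : ℂ)
    (hform : ∀ x : Fin 3 → ℝ, ∑ i : Fin 3, x i ^ 2 = 1 → MvPolynomial.eval x u =
      F (x 2) + H (x 2) * (c * ((x 0 : ℂ) + (x 1 : ℂ) * Complex.I) ^ k).re) :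
    ∃ a b α : ℝ, (ℓ < k → b = 0) ∧ ∀ z ∈ Icc (-1 : ℝ) 1, ∀ φ : ℝ,
      MvPolynomial.eval (pt z φ) u =
        a * (Gp ℓ 0).eval z + b * (√(1 - z ^ 2) ^ k * (Gp ℓ k).eval z) * Real.cos (k * φ + α) := by
  obtain ⟨cc, hc⟩ := decomp ℓ u hu harm
  obtain ⟨z, hz, hz0⟩ := exists_z ℓ
  have hzI : z ∈ Icc (-1 : ℝ) 1 := ⟨by linarith [hz.1], hz.2.le⟩
  have hρ0 : 0 < 1 - z ^ 2 := by nlinarith [hz.1, hz.2]
  have hρ : 0 < √(1 - z ^ 2) := Real.sqrt_pos.2 hρ0
  refine finish ℓ k hk cc u hc fun m h1 h2m hmk => ?_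
  have hd := (four (max ℓ k) (fun m => (if m ≤ ℓ then (((Gp ℓ m).eval z * √(1 - z ^ 2) ^ m : ℝ) : ℂ) * cc m
      else 0) - (if m = 0 then ((F z : ℝ) : ℂ) else 0) -
      (if m = k then ((H z * √(1 - z ^ 2) ^ k : ℝ) : ℂ) * c else 0)) (by
      intro φ
      have hsum : ∑ i : Fin 3, pt z φ i ^ 2 = 1 := by
        rw [Fin.sum_univ_three]
        simp only [pt, Matrix.cons_val_zero, Matrix.cons_val_one, Matrix.cons_val]
        have := Real.sq_sqrt hρ0.le
        have h2 := Real.sin_sq_add_cos_sq φ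
        rw [mul_pow, mul_pow, this]
        linear_combination (1 - z ^ 2) * h2
      have e := hform (pt z φ) hsum
      rw [hc z hzI] at e
      have e0 : pt z φ 2 = z := by simp [pt]
      have e1 : ((pt z φ 0 : ℝ) : ℂ) + ((pt z φ 1 : ℝ) : ℂ) * Complex.I =
          ((√(1 - z ^ 2) : ℝ) : ℂ) * Complex.exp (φ * Complex.I) := by
        rw [Complex.exp_mul_I]
        simp only [pt, Matrix.cons_val_zero, Matrix.cons_val_one]
        push_cast
        ring
      have e2 : (c * (((pt z φ 0 : ℝ) : ℂ) + ((pt z φ 1 : ℝ) : ℂ) * Complex.I) ^ k).re =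
          √(1 - z ^ 2) ^ k * (c * Complex.exp (k * φ * Complex.I)).re := by
        rw [e1, mul_pow, ← Complex.exp_nat_mul, ← Complex.ofReal_pow, ← Complex.re_ofReal_mul]
        congr 1
        rw [← mul_assoc (k : ℂ)]
        ring
      rw [e0, e2] at e
      have s1 : ∑ m ∈ Finset.range (max ℓ k + 1), ((if m ≤ ℓ then
          (((Gp ℓ m).eval z * √(1 - z ^ 2) ^ m : ℝ) : ℂ) * cc m else 0) *
          Complex.exp (m * φ * Complex.I)).re = ∑ m ∈ Finset.range (ℓ + 1),
          (Gp ℓ m).eval z * √(1 - z ^ 2) ^ m * (cc m * Complex.exp (m * φ * Complex.I)).re := by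
        rw [← Finset.sum_subset (Finset.range_mono (show ℓ + 1 ≤ max ℓ k + 1 by
          have := le_max_left ℓ k
          omega))]
        · refine Finset.sum_congr rfl fun m hm => ?_
          rw [if_pos (by have := Finset.mem_range.1 hm; omega), mul_assoc, Complex.re_ofReal_mul]
        · intro m _ hm
          rw [if_neg (by intro h; exact hm (Finset.mem_range.2 (by omega))), zero_mul,
            Complex.zero_re]
      have s2 : ∑ m ∈ Finset.range (max ℓ k + 1), ((if m = 0 then ((F z : ℝ) : ℂ) else 0) *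
          Complex.exp (m * φ * Complex.I)).re = F z := by
        rw [Finset.sum_eq_single 0]
        · simp
        · intro m _ hm
          rw [if_neg hm, zero_mul, Complex.zero_re]
        · intro h
          exact absurd (Finset.mem_range.2 (Nat.succ_pos _)) h
      have s3 : ∑ m ∈ Finset.range (max ℓ k + 1), ((if m = k then
          ((H z * √(1 - z ^ 2) ^ k : ℝ) : ℂ) * c else 0) *
          Complex.exp (m * φ * Complex.I)).re =
          H z * (√(1 - z ^ 2) ^ k * (c * Complex.exp (k * φ * Complex.I)).re) := by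
        rw [Finset.sum_eq_single k]
        · rw [if_pos rfl, mul_assoc, Complex.re_ofReal_mul]
          ring
        · intro m _ hm
          rw [if_neg hm, zero_mul, Complex.zero_re]
        · intro h
          exact absurd (Finset.mem_range.2 (by
            have := le_max_right ℓ k
            omega)) h
      simp only [sub_mul, Complex.sub_re, Finset.sum_sub_distrib]
      rw [s1, s2, s3, e]
      ring)).2 m h1 (h2m.trans (le_max_left _ _))
  have hA : (((Gp ℓ m).eval z * √(1 - z ^ 2) ^ m : ℝ) : ℂ) ≠ 0 := by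
    rw [Complex.ofReal_ne_zero]
    exact mul_ne_zero (hz0 m h2m) (pow_pos hρ m).ne'
  simp only [if_pos h2m, if_neg hmk, if_neg (show m ≠ 0 by omega), sub_zero] at hd
  exact (mul_eq_zero.1 hd).resolve_left hA

end Pool.Agent.Helper54.SH
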