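import Pool.Agent.Helper54.SH.Top
import Pool.Agent.Helper54.SH.OdeC
import Pool.Agent.Helper54.SH.Comb
import Pool.Agent.Helper54.SH.Struct

/-! # Main: assembly -/

set_option autoImplicit false

noncomputable section

namespace Pool.Agent.Helper54.SH

open Polynomial Set

theorem IsLeg.C_mul {ℓ m : ℕ} {g : ℝ[X]} (h : IsLeg ℓ m g) (a : ℝ) : IsLeg ℓ m (C a * g) := by
  unfold IsLeg at *
  have : C a * ((1 - X ^ 2) * derivative (derivative g) - C (2 * ((m : ℝ) + 1)) * X * derivative g +
    C ((ℓ : ℝ) * (ℓ + 1) - m * (m + 1)) * g) = 0 := by rw [h, mul_zero]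
  rw [← this]
  simp only [derivative_mul, derivative_C, zero_mul, zero_add]
  ring

theorem GG_neg (k : ℕ) (g : ℝ[X]) (z : ℝ) : GG k (-g) z = -GG k g z := by
  simp [GG]

/-- arithmetic of the final bound -/
theorem arith (ℓ k S T Q : ℕ) (hℓ : 1 ≤ ℓ) (hk : 1 ≤ k) (hTS : T ≤ S) (hS : S ≤ ℓ + 1)
    (hT : T ≤ 2 * Q) (hT' : T ≤ ℓ - 1) (hQ : Q = 0 ∨ (k ≤ ℓ ∧ Q ≤ ℓ - k + 1)) :
    k * T + (S - T) ≤ (ℓ + 1) ^ 2 / 2 := by
  obtain ⟨j, rfl⟩ : ∃ j, k = j + 1 := ⟨k - 1, by omega⟩
  have h1 : (j + 1) * T + (S - T) ≤ j * T + (ℓ + 1) := by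
    have : (j + 1) * T = j * T + T := by ring
    omega
  refine h1.trans ?_
  rw [Nat.le_div_iff_mul_le (by norm_num)]
  rcases hQ with hQ | ⟨hk', hQ⟩
  · have : T = 0 := by omega
    subst this
    nlinarith
  · obtain ⟨i, rfl⟩ : ∃ i, ℓ = j + 1 + i := ⟨ℓ - (j + 1), by omega⟩
    have h2 : T ≤ 2 * (i + 1) := by omega
    have h3 : T ≤ j + i := by omega
    by_cases hc : j = i + 1
    · subst hc
      nlinarith [Nat.mul_le_mul_left (i + 1) h3]
    · have h4 : j * T ≤ j * (2 * (i + 1)) := Nat.mul_le_mul_left _ h2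
      rcases lt_or_gt_of_ne hc with h5 | h5
      · obtain ⟨e, rfl⟩ : ∃ e, i = j + e := ⟨i - j, by omega⟩
        nlinarith
      · obtain ⟨e, rfl⟩ : ∃ e, j = i + 2 + e := ⟨j - i - 2, by omega⟩
        nlinarith

theorem arith2 (ℓ k S : ℕ) (hk : 1 ≤ k) (hk' : k ≤ ℓ) (hS : S ≤ 2 * (ℓ - k + 1)) :
    k * S + (S - S) ≤ (ℓ + 1) ^ 2 / 2 := by
  rw [Nat.le_div_iff_mul_le (by norm_num)]
  obtain ⟨i, rfl⟩ : ∃ i, ℓ = k + i := ⟨ℓ - k, by omega⟩
  have h2 : S ≤ 2 * (i + 1) := by omega
  have h3 : k * S ≤ k * (2 * (i + 1)) := Nat.mul_le_mul_left _ h2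
  have h4 : k * S + (S - S) = k * S := by omega
  rw [h4]
  have h5 : k * S * 2 ≤ 4 * (k * (i + 1)) := by nlinarith
  refine h5.trans ?_
  have h6 : (4 * (k * (i + 1)) : ℤ) ≤ (k + i + 1) ^ 2 := by nlinarith [sq_nonneg ((k : ℤ) - (i + 1))]
  exact_mod_cast h6

theorem main_count (ℓ k : ℕ) (hℓ : 1 ≤ ℓ) (hk : 1 ≤ k) (u : MvPolynomial (Fin 3) ℝ)
    (a b α : ℝ) (hb : ℓ < k → b = 0)
    (hform : ∀ z ∈ Icc (-1 : ℝ) 1, ∀ φ : ℝ, MvPolynomial.eval (pt z φ) u =
        a * (Gp ℓ 0).eval z + b * (√(1 - z ^ 2) ^ k * (Gp ℓ k).eval z) * Real.cos (k * φ + α)) :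
    Finite (ConnectedComponents (Dom (fun x => MvPolynomial.eval x u))) ∧
      Nat.card (ConnectedComponents (Dom (fun x => MvPolynomial.eval x u))) ≤ (ℓ + 1) ^ 2 / 2 := by
  have hcu : Continuous (fun x : Fin 3 → ℝ => MvPolynomial.eval x u) := MvPolynomial.continuous_eval u
  set f : ℝ[X] := C a * Gp ℓ 0 with hfdef
  set g : ℝ[X] := C b * Gp ℓ k with hgdef
  have hform' : ∀ z ∈ Icc (-1 : ℝ) 1, ∀ φ : ℝ, (fun x : Fin 3 → ℝ => MvPolynomial.eval x u) (pt z φ) =
      (fun z => f.eval z) z + GG k g z * Real.cos (k * φ + α) := by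
    intro z hz φ
    simp only [hform z hz φ, hfdef, hgdef, GG, eval_mul, eval_C]
    ring
  have hGc : Continuous (GG k g) := continuous_GG k g
  have hG1 : GG k g 1 = 0 := by
    simp [GG, show k ≠ 0 by omega]
  have hG2 : GG k g (-1) = 0 := by
    simp [GG, show k ≠ 0 by omega]
  by_cases ha : a = 0
  · by_cases hb0 : b = 0
    · -- `u = 0` on the sphere: reduce to `S = ∅`
      have h := top_count (fun x => MvPolynomial.eval x u) hcu k hk α (fun z => f.eval z) (GG k g)
        f.continuous.continuousOn hGc.continuousOn hform' ∅ ∅ (by simp) (fun _ => 1) (fun _ => 0)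
        (by simp) (by simp) (by
          intro s hs z hz h
          exfalso
          simp [hfdef, hgdef, GG, ha, hb0] at h) (by simp)
      refine ⟨h.1, h.2.trans ?_⟩
      simp
    · have hk' : k ≤ ℓ := by
        by_contra hcon
        exact hb0 (hb (by omega))
      have hg0 : g ≠ 0 := by
        intro h0
        have := congrArg (fun p : ℝ[X] => p.eval 1) h0
        simp [hgdef, Gp_eval_one] at this
        exact hb0 this
      have hgdeg : g.natDegree ≤ ℓ - k := (natDegree_C_mul_le _ _).trans (Gp_natDegree_le ℓ k)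
      obtain ⟨S, σ, p, hS, hσ, hp, hcov⟩ := exists_data_zero k (ℓ - k) hk g hg0 hgdeg
      have hf0 : ∀ z, f.eval z = 0 := by intro z; simp [hfdef, ha]
      have h := top_count (fun x => MvPolynomial.eval x u) hcu k hk α (fun z => f.eval z) (GG k g)
        f.continuous.continuousOn hGc.continuousOn hform' S S subset_rfl σ p hσ hp (by
          intro s hs z hz h
          simp only [hf0, mul_zero, zero_add] at h ⊢
          exact hcov s hs z hz h) (by
          intro i hi hi'; exact absurd hi hi')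
      exact ⟨h.1, h.2.trans (arith2 ℓ k S.card hk hk' hS)⟩
  · have hfL : IsLeg ℓ 0 f := (isLeg_Gp ℓ 0 (Nat.zero_le _)).C_mul a
    have hf1 : f.eval 1 ≠ 0 := by simp [hfdef, Gp_eval_one, ha]
    have hf2 : f.eval (-1) ≠ 0 := by simp [hfdef, Gp_eval_neg_one, ha]
    have hf0 : f ≠ 0 := by rintro h0; simp [h0] at hf1
    have hfdeg : f.natDegree ≤ ℓ :=
      ((natDegree_C_mul_le _ _).trans (Gp_natDegree_le ℓ 0)).trans (Nat.sub_le _ _)
    have hgL : IsLeg ℓ k g := by
      by_cases hk' : k ≤ ℓ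
      · exact (isLeg_Gp ℓ k hk').C_mul b
      · have : b = 0 := hb (by omega)
        simp [hgdef, this, IsLeg]
    -- the symmetric versions
    have hneg : ∀ s : ℝ, (s = 1 ∨ s = -1) → IsLeg ℓ 0 (C s * f) ∧ (C s * f).eval 1 ≠ 0 ∧
        (C s * f).eval (-1) ≠ 0 := by
      intro s hs
      refine ⟨hfL.C_mul s, ?_, ?_⟩
      · rw [eval_mul, eval_C]; exact mul_ne_zero (by rcases hs with rfl | rfl <;> norm_num) hf1
      · rw [eval_mul, eval_C]; exact mul_ne_zero (by rcases hs with rfl | rfl <;> norm_num) hf2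
    have hA : ∀ s : ℝ, (s = 1 ∨ s = -1) → ∀ z ∈ Icc (-1 : ℝ) 1, 0 < s * f.eval z + |GG k g z| →
      ∃ z' ∈ Icc (-1 : ℝ) 1, 0 < s * f.eval z' ∧ ∀ t ∈ uIcc z z', 0 < s * f.eval t + |GG k g t| := by
      intro s hs z hz h
      obtain ⟨h1, h2, h3⟩ := hneg s hs
      obtain ⟨z', hz', h4, h5⟩ := exists_pos ℓ k hk (C s * f) g h1 hgL h2 h3 z hz (by
        simpa [hh] using h)
      exact ⟨z', hz', by simpa using h4, fun t ht => by simpa [hh] using h5 t ht⟩
    by_cases hb0 : b = 0
    · have hGz : ∀ z, GG k g z = 0 := by intro z; simp [GG, hgdef, hb0]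
      obtain ⟨S, T, σ, p, hTS, hS, hT, hT', hσ, hp, hcov, hnT⟩ := exists_data ℓ f hf0 hfdeg (GG k g)
        hGc.continuousOn hG1 hG2 ∅ hA (by
          intro s hs z hz h h'
          exfalso
          have := h' z hz (by intro t ht; simp at ht; rw [ht]; exact h)
          rw [hGz] at this h
          simp at this h
          linarith)
      have h := top_count (fun x => MvPolynomial.eval x u) hcu k hk α (fun z => f.eval z) (GG k g)
        f.continuous.continuousOn hGc.continuousOn hform' S T hTS σ p hσ hp hcov hnT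
      exact ⟨h.1, h.2.trans (arith ℓ k S.card T.card 0 hℓ hk (Finset.card_le_card hTS) hS
        (by simpa using hT) hT' (Or.inl rfl))⟩
    · have hk' : k ≤ ℓ := by
        by_contra hcon
        exact hb0 (hb (by omega))
      have hg1 : g.eval 1 = b := by simp [hgdef, Gp_eval_one]
      have hq0 : qq k g ≠ 0 := by
        intro h0
        have := congrArg (fun p : ℝ[X] => p.eval 1) h0
        simp [qq, hg1] at this
        rcases this with h | h
        · omega
        · exact hb0 h
      have hgdeg : g.natDegree ≤ ℓ - k := (natDegree_C_mul_le _ _).trans (Gp_natDegree_le ℓ k)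
      have hqdeg : (qq k g).natDegree ≤ ℓ - k + 1 := by
        unfold qq
        refine (natDegree_sub_le _ _).trans (max_le ?_ ?_)
        · by_cases hd : derivative g = 0
          · simp [hd]
          · have h1 : (derivative g).natDegree ≤ g.natDegree - 1 := natDegree_derivative_le g
            have h2 : g.natDegree ≠ 0 := by
              intro h0
              exact hd (derivative_of_natDegree_zero h0)
            refine natDegree_mul_le.trans ?_
            have h3 : (1 - X ^ 2 : ℝ[X]).natDegree ≤ 2 := by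
              refine (natDegree_sub_le _ _).trans (max_le (by simp) (by simp))
            omega
        · refine natDegree_mul_le.trans ?_
          have h3 : (C (k : ℝ) * X : ℝ[X]).natDegree ≤ 1 := (natDegree_C_mul_le _ _).trans (by simp)
          omega
      obtain ⟨S, T, σ, p, hTS, hS, hT, hT', hσ, hp, hcov, hnT⟩ := exists_data ℓ f hf0 hfdeg (GG k g)
        hGc.continuousOn hG1 hG2 (qq k g).roots.toFinset hA (by
          intro s hs z hz h h'
          obtain ⟨h1, h2, h3⟩ := hneg s hs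
          obtain ⟨r, hr, hqr, h5⟩ := exists_root_qq ℓ k hk (C s * f) g h1 hgL h2 h3 z hz
            (by simpa [hh] using h) (by
              intro z' hz' h6
              have := h' z' hz' (fun t ht => by simpa [hh] using h6 t ht)
              simpa using this)
          exact ⟨r, by simp [hq0, hqr], hr, fun t ht => by simpa [hh] using h5 t ht⟩)
      have h := top_count (fun x => MvPolynomial.eval x u) hcu k hk α (fun z => f.eval z) (GG k g)
        f.continuous.continuousOn hGc.continuousOn hform' S T hTS σ p hσ hp hcov hnT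
      have hQ : (qq k g).roots.toFinset.card ≤ ℓ - k + 1 :=
        (Multiset.toFinset_card_le _).trans ((card_roots' _).trans hqdeg)
      exact ⟨h.1, h.2.trans (arith ℓ k S.card T.card _ hℓ hk (Finset.card_le_card hTS) hS
        hT hT' (Or.inr ⟨hk', hQ⟩))⟩

end Pool.Agent.Helper54.SH
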