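import Pool.Agent.Helper54.SH.OdeBase
import Pool.Agent.Helper54.SH.Comb

/-! # OdeA: first Sturm type lemma

`f` solves the Legendre equation (`IsLeg ℓ 0 f`), `g` the Gegenbauer equation of order `k ≥ 1` (`IsLeg ℓ k g`),
`G = GG k g`, `W = WW k f g = (1-z²)(f' G - f G')`, `W' = - k² f G/(1-z²)` on `(-1,1)` (`hasDerivAt_WW`).

PLAN. Let `h = f + |G|`, `z₁ ∈ [-1,1]`, `h z₁ > 0`. Suppose no `z'` with `f z' > 0` and `h > 0` on
`uIcc z₁ z'`. Let `a` be the last zero of `h` before `z₁` and `b` the first after `z₁` (`exists_left`, `exists_right`;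
if `h > 0` on `[-1,z₁]`, then as `G(-1) = 0`, `h(-1) = f(-1) > 0` and `z' = -1` works; also `a ≠ -1` since
`h(-1) = f(-1) ≠ 0`; the same at `1`). On `(a,b)`: `h > 0`, `f ≤ 0`, so `G ≠ 0` of constant sign, w.l.o.g.
`G > 0` (replace `g` by `-g`). `r = f + G` vanishes at `a`, `b` and is `> 0` in between, so `r'(a) ≥ 0 ≥ r'(b)`;
since `f(a) = -G(a)`: `W(a) = (1-a²) G(a) r'(a) ≥ 0`, and `W(b) = (1-b²) G(b) r'(b) ≤ 0`. But `W' = -k² f G/(1-z²) ≥ 0`
on `(a,b)`, so `W` is constant and `f G = 0` there, `f = 0` on `(a,b)`, so `f = 0` as a polynomial: contradiction.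
(`WW_ends_nonneg` = the two inequalities `W(a) ≥ 0`, `W(b) ≤ 0`; it is used in OdeC too.)
-/

set_option autoImplicit false

noncomputable section

namespace Pool.Agent.Helper54.SH

open Polynomial Set

theorem deriv_nonneg_of_right {r : ℝ → ℝ} {r' a b : ℝ} (hab : a < b) (h : HasDerivAt r r' a)
    (h0 : r a = 0) (hpos : ∀ t ∈ Ioo a b, 0 < r t) : 0 ≤ r' := by
  have h1 : Filter.Tendsto (slope r a) (nhdsWithin a (Ioi a)) (nhds r') :=
    (hasDerivAt_iff_tendsto_slope.1 h).mono_left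
      (nhdsWithin_mono a (fun t ht => by simpa using (ne_of_gt ht)))
  refine ge_of_tendsto h1 ?_
  filter_upwards [Ioo_mem_nhdsGT hab] with t ht
  rw [slope_def_field, h0, sub_zero]
  exact div_nonneg (hpos t ht).le (by linarith [ht.1])

theorem deriv_nonpos_of_left {r : ℝ → ℝ} {r' a b : ℝ} (hab : a < b) (h : HasDerivAt r r' b)
    (h0 : r b = 0) (hpos : ∀ t ∈ Ioo a b, 0 < r t) : r' ≤ 0 := by
  have h1 : Filter.Tendsto (slope r b) (nhdsWithin b (Iio b)) (nhds r') :=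
    (hasDerivAt_iff_tendsto_slope.1 h).mono_left
      (nhdsWithin_mono b (fun t ht => by simpa using (ne_of_lt ht)))
  refine le_of_tendsto h1 ?_
  filter_upwards [Ioo_mem_nhdsLT hab] with t ht
  rw [slope_def_field, h0, sub_zero]
  exact div_nonpos_of_nonneg_of_nonpos (hpos t ht).le (by linarith [ht.2])

theorem nonneg_of_Ioo {F : ℝ → ℝ} (hF : Continuous F) {a b : ℝ} (hab : a < b)
    (h : ∀ t ∈ Ioo a b, 0 ≤ F t) : ∀ t ∈ Icc a b, 0 ≤ F t := by
  intro t ht
  have h1 : Icc a b ⊆ closure (Ioo a b) := by rw [closure_Ioo hab.ne]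
  have h2 : IsClosed {t | 0 ≤ F t} := isClosed_le continuous_const hF
  exact closure_minimal (fun t ht => h t ht) h2 (h1 ht)

theorem WW_ends (k : ℕ) (f g : ℝ[X]) (a b : ℝ) (ha : -1 < a) (hab : a < b) (hb : b < 1)
    (hG : ∀ t ∈ Ioo a b, 0 < GG k g t) (hfa : f.eval a = -GG k g a) (hfb : f.eval b = -GG k g b)
    (hpos : ∀ t ∈ Ioo a b, 0 < f.eval t + GG k g t) :
    0 ≤ WW k f g a ∧ WW k f g b ≤ 0 := by
  have hGc := nonneg_of_Ioo (continuous_GG k g) hab (fun t ht => (hG t ht).le)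
  have ha1 : a ∈ Ioo (-1 : ℝ) 1 := ⟨ha, hab.trans hb⟩
  have hb1 : b ∈ Ioo (-1 : ℝ) 1 := ⟨ha.trans hab, hb⟩
  have hs : ∀ z ∈ Ioo (-1 : ℝ) 1, 0 < 1 - z ^ 2 := by
    intro z hz
    nlinarith [hz.1, hz.2]
  have key : ∀ z ∈ Ioo (-1 : ℝ) 1, f.eval z = -GG k g z →
      WW k f g z = (1 - z ^ 2) * GG k g z *
        ((derivative f).eval z + √(1 - z ^ 2) ^ k * (qq k g).eval z / (1 - z ^ 2)) := by
    intro z hz hfz
    rw [WW_eq, hfz]
    have := (hs z hz).ne'
    field_simp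
    ring
  have hd : ∀ z ∈ Ioo (-1 : ℝ) 1, HasDerivAt (fun t => f.eval t + GG k g t)
      ((derivative f).eval z + √(1 - z ^ 2) ^ k * (qq k g).eval z / (1 - z ^ 2)) z := by
    intro z hz
    exact (f.hasDerivAt z).add (hasDerivAt_GG k g z hz)
  constructor
  · rw [key a ha1 hfa]
    have h1 := deriv_nonneg_of_right hab (hd a ha1) (by simp [hfa]) hpos
    exact mul_nonneg (mul_nonneg (hs a ha1).le (hGc a (left_mem_Icc.2 hab.le))) h1
  · rw [key b hb1 hfb]
    have h1 := deriv_nonpos_of_left hab (hd b hb1) (by simp [hfb]) hpos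
    exact mul_nonpos_of_nonneg_of_nonpos
      (mul_nonneg (hs b hb1).le (hGc b (right_mem_Icc.2 hab.le))) h1

theorem coreA (ℓ k : ℕ) (hk : 1 ≤ k) (f g : ℝ[X]) (hf : IsLeg ℓ 0 f) (hg : IsLeg ℓ k g)
    (hf0 : f ≠ 0) (a b : ℝ) (ha : -1 < a) (hab : a < b) (hb : b < 1)
    (hG : ∀ t ∈ Ioo a b, 0 < GG k g t) (hfa : f.eval a = -GG k g a) (hfb : f.eval b = -GG k g b)
    (hpos : ∀ t ∈ Ioo a b, 0 < f.eval t + GG k g t) (hneg : ∀ t ∈ Ioo a b, f.eval t ≤ 0) :
    False := by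
  obtain ⟨hWa, hWb⟩ := WW_ends k f g a b ha hab hb hG hfa hfb hpos
  have hI : ∀ z ∈ Icc a b, z ∈ Ioo (-1 : ℝ) 1 := fun z hz =>
    ⟨lt_of_lt_of_le ha hz.1, lt_of_le_of_lt hz.2 hb⟩
  have hs : ∀ z ∈ Ioo (-1 : ℝ) 1, 0 < 1 - z ^ 2 := by
    intro z hz
    nlinarith [hz.1, hz.2]
  have hk0 : (0 : ℝ) < k := by exact_mod_cast hk
  have hd : ∀ z ∈ Icc a b, HasDerivAt (WW k f g)
      (-(k : ℝ) ^ 2 * f.eval z * GG k g z / (1 - z ^ 2)) z := fun z hz =>
    hasDerivAt_WW ℓ k f g hf hg z (hI z hz)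
  have hmono : MonotoneOn (WW k f g) (Icc a b) := by
    refine monotoneOn_of_deriv_nonneg (convex_Icc a b) (continuous_WW k f g).continuousOn ?_ ?_
    · rw [interior_Icc]
      intro z hz
      exact (hd z (Ioo_subset_Icc_self hz)).differentiableAt.differentiableWithinAt
    · rw [interior_Icc]
      intro z hz
      rw [(hd z (Ioo_subset_Icc_self hz)).deriv]
      refine div_nonneg ?_ (hs z (hI z (Ioo_subset_Icc_self hz))).le
      have h1 := hneg z hz
      have h2 := hG z hz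
      have h3 : 0 ≤ (k : ℝ) ^ 2 * (-f.eval z) * GG k g z :=
        mul_nonneg (mul_nonneg (sq_nonneg _) (by linarith)) h2.le
      linarith
  have hzero : ∀ z ∈ Icc a b, WW k f g z = 0 := by
    intro z hz
    have h1 := hmono (left_mem_Icc.2 hab.le) hz hz.1
    have h2 := hmono hz (right_mem_Icc.2 hab.le) hz.2
    linarith
  have hfz : ∀ z ∈ Ioo a b, f.eval z = 0 := by
    intro z hz
    have h1 := hd z (Ioo_subset_Icc_self hz)
    have h2 : HasDerivAt (WW k f g) 0 z := by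
      refine (hasDerivAt_const z (0 : ℝ)).congr_of_eventuallyEq ?_
      filter_upwards [Ioo_mem_nhds hz.1 hz.2] with t ht
      exact hzero t (Ioo_subset_Icc_self ht)
    have h3 := h1.unique h2
    have h4 := (hs z (hI z (Ioo_subset_Icc_self hz))).ne'
    rw [div_eq_zero_iff] at h3
    rcases h3 with h3 | h3
    · have h5 := (hG z hz).ne'
      have h6 : (k : ℝ) ^ 2 ≠ 0 := by positivity
      rcases mul_eq_zero.1 h3 with h7 | h7
      · rcases mul_eq_zero.1 h7 with h8 | h8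
        · exact absurd h8 (neg_ne_zero.2 h6)
        · exact h8
      · exact absurd h7 h5
    · exact absurd h3 h4
  apply hf0
  refine Polynomial.eq_zero_of_infinite_isRoot f ((Ioo_infinite hab).mono ?_)
  intro z hz
  exact hfz z hz

theorem GG_one (k : ℕ) (hk : 1 ≤ k) (g : ℝ[X]) : GG k g 1 = 0 := by
  simp [GG, show k ≠ 0 by omega]

theorem GG_neg_one (k : ℕ) (hk : 1 ≤ k) (g : ℝ[X]) : GG k g (-1) = 0 := by
  simp [GG, show k ≠ 0 by omega]

theorem GG_neg' (k : ℕ) (g : ℝ[X]) (z : ℝ) : GG k (-g) z = -GG k g z := by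
  simp [GG]

theorem IsLeg.neg {ℓ m : ℕ} {g : ℝ[X]} (h : IsLeg ℓ m g) : IsLeg ℓ m (-g) := by
  unfold IsLeg at *
  rw [← neg_eq_zero, ← h]
  simp only [derivative_neg]
  ring

theorem exists_pos (ℓ k : ℕ) (hk : 1 ≤ k) (f g : ℝ[X]) (hf : IsLeg ℓ 0 f) (hg : IsLeg ℓ k g)
    (hf1 : f.eval 1 ≠ 0) (hf2 : f.eval (-1) ≠ 0)
    (z₁ : ℝ) (hz : z₁ ∈ Icc (-1 : ℝ) 1) (hpos : 0 < hh k f g z₁) :
    ∃ z' ∈ Icc (-1 : ℝ) 1, 0 < f.eval z' ∧ ∀ t ∈ uIcc z₁ z', 0 < hh k f g t := by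
  by_contra hcon
  push Not at hcon
  have hf0 : f ≠ 0 := by
    rintro rfl
    simp at hf1
  have hhc := continuous_hh k f g
  have hm1 : hh k f g (-1) = f.eval (-1) := by simp [hh, GG_neg_one k hk]
  have h1' : hh k f g 1 = f.eval 1 := by simp [hh, GG_one k hk]
  -- left end
  obtain ⟨z0, hz0, hz0'⟩ : ∃ z0 ∈ Icc (-1 : ℝ) z₁, hh k f g z0 ≤ 0 := by
    by_contra hc
    push Not at hc
    have h1 := hc (-1) ⟨le_refl _, hz.1⟩
    rw [hm1] at h1
    obtain ⟨t, ht, ht'⟩ := hcon (-1) ⟨le_refl _, by norm_num⟩ h1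
    rw [uIcc_of_ge hz.1] at ht
    exact absurd (hc t ht) (not_lt.2 ht')
  obtain ⟨z2, hz2, hz2'⟩ : ∃ z2 ∈ Icc z₁ (1 : ℝ), hh k f g z2 ≤ 0 := by
    by_contra hc
    push Not at hc
    have h1 := hc 1 ⟨hz.2, le_refl _⟩
    rw [h1'] at h1
    obtain ⟨t, ht, ht'⟩ := hcon 1 ⟨by norm_num, le_refl _⟩ h1
    rw [uIcc_of_le hz.2] at ht
    exact absurd (hc t ht) (not_lt.2 ht')
  obtain ⟨a, ha, ha0, hapos⟩ := exists_left _ hhc z0 z₁ hz0.2 hz0' hpos
  obtain ⟨b, hb, hb0, hbpos⟩ := exists_right _ hhc z₁ z2 hz2.1 hz2' hpos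
  have ha1 : -1 < a := by
    refine lt_of_le_of_ne (hz0.1.trans ha.1) ?_
    rintro rfl
    rw [hm1] at ha0
    exact hf2 ha0
  have hb1 : b < 1 := by
    refine lt_of_le_of_ne (hb.2.trans hz2.2) ?_
    rintro rfl
    rw [h1'] at hb0
    exact hf1 hb0
  have haz : a < z₁ := ha.2
  have hzb : z₁ < b := hb.1
  have hab : a < b := haz.trans hzb
  have hJ : ∀ t ∈ Ioo a b, 0 < hh k f g t := by
    intro t ht
    rcases le_total t z₁ with h | h
    · exact hapos t ⟨ht.1, h⟩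
    · exact hbpos t ⟨h, ht.2⟩
  have hneg : ∀ t ∈ Ioo a b, f.eval t ≤ 0 := by
    intro t ht
    by_contra hc
    push Not at hc
    obtain ⟨w, hw, hw'⟩ := hcon t ⟨by linarith [ht.1], by linarith [ht.2]⟩ hc
    have hw2 : w ∈ Ioo a b := by
      rcases mem_uIcc.1 hw with ⟨h1, h2⟩ | ⟨h1, h2⟩
      · exact ⟨by linarith, by linarith [ht.2]⟩
      · exact ⟨by linarith [ht.1], by linarith⟩
    exact absurd (hJ w hw2) (not_lt.2 hw')
  have hGne : ∀ t ∈ Ioo a b, GG k g t ≠ 0 := by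
    intro t ht h0
    have h1 := hJ t ht
    have h2 := hneg t ht
    unfold hh at h1
    rw [h0, abs_zero] at h1
    linarith
  have hGc := continuous_GG k g
  have hz₁ : z₁ ∈ Ioo a b := ⟨haz, hzb⟩
  have hsub : ∀ t ∈ Ioo a b, uIcc z₁ t ⊆ Ioo a b := by
    intro t ht w hw
    rcases mem_uIcc.1 hw with ⟨h1, h2⟩ | ⟨h1, h2⟩
    · exact ⟨by linarith, by linarith [ht.2]⟩
    · exact ⟨by linarith [ht.1], by linarith⟩
  rcases lt_or_gt_of_ne (hGne z₁ hz₁) with hlt | hgt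
  · -- `G < 0`
    have hG : ∀ t ∈ Ioo a b, 0 < GG k (-g) t := by
      intro t ht
      have h1 := sign_const (F := fun z => -GG k g z) (z := z₁) (z' := t) hGc.neg
        (fun w hw => neg_ne_zero.2 (hGne w (hsub t ht hw))) (by simpa using hlt) t right_mem_uIcc
      rw [GG_neg']
      exact h1
    have hGa : ∀ t ∈ Icc a b, 0 ≤ GG k (-g) t :=
      nonneg_of_Ioo (continuous_GG k (-g)) hab (fun t ht => (hG t ht).le)
    have habs : ∀ t ∈ Icc a b, |GG k g t| = GG k (-g) t := by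
      intro t ht
      rw [← abs_of_nonneg (hGa t ht), GG_neg', abs_neg]
    refine coreA ℓ k hk f (-g) hf hg.neg hf0 a b ha1 hab hb1 hG ?_ ?_ ?_ hneg
    · have := ha0
      unfold hh at this
      rw [habs a (left_mem_Icc.2 hab.le)] at this
      linarith
    · have := hb0
      unfold hh at this
      rw [habs b (right_mem_Icc.2 hab.le)] at this
      linarith
    · intro t ht
      have := hJ t ht
      unfold hh at this
      rwa [habs t (Ioo_subset_Icc_self ht)] at this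
  · have hG : ∀ t ∈ Ioo a b, 0 < GG k g t := by
      intro t ht
      exact sign_const (F := GG k g) (z := z₁) (z' := t) hGc
        (fun w hw => hGne w (hsub t ht hw)) hgt t right_mem_uIcc
    have hGa : ∀ t ∈ Icc a b, 0 ≤ GG k g t :=
      nonneg_of_Ioo hGc hab (fun t ht => (hG t ht).le)
    have habs : ∀ t ∈ Icc a b, |GG k g t| = GG k g t := fun t ht => abs_of_nonneg (hGa t ht)
    refine coreA ℓ k hk f g hf hg hf0 a b ha1 hab hb1 hG ?_ ?_ ?_ hneg
    · have := ha0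
      unfold hh at this
      rw [habs a (left_mem_Icc.2 hab.le)] at this
      linarith
    · have := hb0
      unfold hh at this
      rw [habs b (right_mem_Icc.2 hab.le)] at this
      linarith
    · intro t ht
      have := hJ t ht
      unfold hh at this
      rwa [habs t (Ioo_subset_Icc_self ht)] at this

end Pool.Agent.Helper54.SH
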