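import Pool.Agent.Helper54.SH.Defs

/-! # OdeBase: derivatives of `G = GG k g` and of the Wronskian

PLAN. On `(-1,1)`: `√(1-z²)` has derivative `-z/√(1-z²)`, so `G' = ρ^k (g' - k z g/(1-z²))`, i.e.
`(1-z²) G' = ρ^k qq(z)`. The polynomial `w = (1-z²)(f' g - f g') + k z f g` satisfies
`(1-z²) w' = k z w - k² f g` (from the two equations: `(1-z²) f'' = 2 z f' - λ f`,
`(1-z²) g'' = 2(k+1) z g' - (λ - k(k+1)) g`), hence `W = ρ^k w` has `W' = - k² f G/(1-z²)`.
-/

set_option autoImplicit false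

noncomputable section

namespace Pool.Agent.Helper54.SH

open Polynomial Set

theorem continuous_GG (k : ℕ) (g : ℝ[X]) : Continuous (GG k g) := by
  unfold GG
  exact ((Real.continuous_sqrt.comp (continuous_const.sub (continuous_id.pow 2))).pow k).mul
    g.continuous

theorem continuous_WW (k : ℕ) (f g : ℝ[X]) : Continuous (WW k f g) := by
  unfold WW
  have h1 : Continuous fun z : ℝ => √(1 - z ^ 2) := by fun_prop
  have hf := f.continuous
  have hg := g.continuous
  have hf' := (derivative f).continuous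
  have hg' := (derivative g).continuous
  fun_prop

theorem continuous_hh (k : ℕ) (f g : ℝ[X]) : Continuous (hh k f g) := by
  unfold hh
  exact f.continuous.add (continuous_GG k g).abs

private theorem one_sub_pos (z : ℝ) (hz : z ∈ Ioo (-1 : ℝ) 1) : 0 < 1 - z ^ 2 := by
  nlinarith [hz.1, hz.2]

private theorem hasDerivAt_rho (k : ℕ) (z : ℝ) (hz : z ∈ Ioo (-1 : ℝ) 1) :
    HasDerivAt (fun z : ℝ => √(1 - z ^ 2) ^ k) (√(1 - z ^ 2) ^ k * (-(k * z) / (1 - z ^ 2))) z := by
  have h0 := one_sub_pos z hz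
  have h1 : HasDerivAt (fun z : ℝ => 1 - z ^ 2) (-(2 * z)) z := by
    simpa using (hasDerivAt_pow 2 z).const_sub 1
  have h2 := (h1.sqrt h0.ne').pow k
  refine h2.congr_deriv ?_
  have hs : 0 < √(1 - z ^ 2) := Real.sqrt_pos.2 h0
  have hs2 : √(1 - z ^ 2) ^ 2 = 1 - z ^ 2 := Real.sq_sqrt h0.le
  cases k with
  | zero => simp
  | succ k =>
    rw [← hs2, Nat.add_sub_cancel]
    rw [Real.sqrt_sq hs.le]
    field_simp
    ring

theorem hasDerivAt_GG (k : ℕ) (g : ℝ[X]) (z : ℝ) (hz : z ∈ Ioo (-1 : ℝ) 1) :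
    HasDerivAt (GG k g) (√(1 - z ^ 2) ^ k * (qq k g).eval z / (1 - z ^ 2)) z := by
  unfold GG
  have h := (hasDerivAt_rho k z hz).mul (g.hasDerivAt z)
  refine HasDerivAt.congr_deriv h ?_
  have h1 : (1 - z ^ 2) ≠ 0 := (one_sub_pos z hz).ne'
  simp only [qq, eval_sub, eval_mul, eval_one, eval_pow, eval_X, eval_C]
  field_simp
  ring

theorem WW_eq (k : ℕ) (f g : ℝ[X]) (z : ℝ) :
    WW k f g z = (1 - z ^ 2) * ((derivative f).eval z * GG k g z) -
      f.eval z * (√(1 - z ^ 2) ^ k * (qq k g).eval z) := by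
  simp only [WW, GG, qq, eval_sub, eval_mul, eval_one, eval_pow, eval_X, eval_C]
  ring

theorem hasDerivAt_WW (ℓ k : ℕ) (f g : ℝ[X]) (hf : IsLeg ℓ 0 f) (hg : IsLeg ℓ k g)
    (z : ℝ) (hz : z ∈ Ioo (-1 : ℝ) 1) :
    HasDerivAt (WW k f g) (-(k : ℝ) ^ 2 * f.eval z * GG k g z / (1 - z ^ 2)) z := by
  have hw : HasDerivAt (fun z : ℝ => (1 - z ^ 2) * ((derivative f).eval z * g.eval z -
      f.eval z * (derivative g).eval z) + k * z * (f.eval z * g.eval z))
      ((-(2 * z)) * ((derivative f).eval z * g.eval z - f.eval z * (derivative g).eval z) +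
        (1 - z ^ 2) * (((derivative (derivative f)).eval z * g.eval z +
          (derivative f).eval z * (derivative g).eval z) -
          ((derivative f).eval z * (derivative g).eval z +
          f.eval z * (derivative (derivative g)).eval z)) +
        (k * (f.eval z * g.eval z) + k * z * ((derivative f).eval z * g.eval z +
          f.eval z * (derivative g).eval z))) z := by
    have h1 : HasDerivAt (fun z : ℝ => 1 - z ^ 2) (-(2 * z)) z := by
      simpa using (hasDerivAt_pow 2 z).const_sub 1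
    have h2 : HasDerivAt (fun z : ℝ => (k : ℝ) * z) k z := by
      simpa using (hasDerivAt_id z).const_mul (k : ℝ)
    exact (h1.mul ((((derivative f).hasDerivAt z).mul (g.hasDerivAt z)).sub
      ((f.hasDerivAt z).mul ((derivative g).hasDerivAt z)))).add
      (h2.mul ((f.hasDerivAt z).mul (g.hasDerivAt z)))
  have h := (hasDerivAt_rho k z hz).mul hw
  have h1 : (1 - z ^ 2) ≠ 0 := (one_sub_pos z hz).ne'
  have ef := congrArg (eval z) hf
  have eg := congrArg (eval z) hg
  simp only [eval_sub, eval_mul, eval_one, eval_pow, eval_X, eval_C, eval_add, eval_zero,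
    Nat.cast_zero, zero_add, zero_mul, sub_zero, mul_one] at ef eg
  have key : (1 - z ^ 2) * ((-(2 * z)) * ((derivative f).eval z * g.eval z -
        f.eval z * (derivative g).eval z) +
        (1 - z ^ 2) * (((derivative (derivative f)).eval z * g.eval z +
          (derivative f).eval z * (derivative g).eval z) -
          ((derivative f).eval z * (derivative g).eval z +
          f.eval z * (derivative (derivative g)).eval z)) +
        (k * (f.eval z * g.eval z) + k * z * ((derivative f).eval z * g.eval z +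
          f.eval z * (derivative g).eval z))) =
      k * z * ((1 - z ^ 2) * ((derivative f).eval z * g.eval z -
      f.eval z * (derivative g).eval z) + k * z * (f.eval z * g.eval z)) -
      (k : ℝ) ^ 2 * (f.eval z * g.eval z) := by
    linear_combination (1 - z ^ 2) * g.eval z * ef - (1 - z ^ 2) * f.eval z * eg
  refine h.congr_deriv ?_
  unfold GG
  rw [mul_comm, ← eq_div_iff h1] at key
  rw [key]
  field_simp
  ring

/-- left end of a component of `{h > 0}` -/
theorem exists_left (h : ℝ → ℝ) (hc : Continuous h) (z₀ z₁ : ℝ) (hz : z₀ ≤ z₁) (h0 : h z₀ ≤ 0)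
    (h1 : 0 < h z₁) : ∃ a ∈ Ico z₀ z₁, h a = 0 ∧ ∀ t ∈ Ioc a z₁, 0 < h t := by
  obtain ⟨a, ha, hmax⟩ := ((isCompact_Icc (a := z₀) (b := z₁)).inter_right
    (isClosed_le hc continuous_const : IsClosed {t : ℝ | h t ≤ 0})).exists_isGreatest
    ⟨z₀, ⟨le_refl _, hz⟩, h0⟩
  have ha1 : a < z₁ := lt_of_le_of_ne ha.1.2 (by
    rintro rfl
    exact absurd ha.2 (not_le.2 h1))
  have hpos : ∀ t ∈ Ioc a z₁, 0 < h t := by
    intro t ht
    by_contra hn
    have := hmax ⟨⟨ha.1.1.trans ht.1.le, ht.2⟩, not_lt.1 hn⟩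
    exact absurd ht.1 (not_lt.2 this)
  refine ⟨a, ⟨ha.1.1, ha1⟩, le_antisymm ha.2 ?_, hpos⟩
  have hcl : closure (Ioc a z₁) ⊆ {t | 0 ≤ h t} :=
    closure_minimal (fun t ht => (hpos t ht).le) (isClosed_le continuous_const hc)
  rw [closure_Ioc ha1.ne] at hcl
  exact hcl ⟨le_refl _, ha1.le⟩

/-- right end of a component of `{h > 0}` -/
theorem exists_right (h : ℝ → ℝ) (hc : Continuous h) (z₁ z₂ : ℝ) (hz : z₁ ≤ z₂) (h0 : h z₂ ≤ 0)
    (h1 : 0 < h z₁) : ∃ b ∈ Ioc z₁ z₂, h b = 0 ∧ ∀ t ∈ Ico z₁ b, 0 < h t := by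
  obtain ⟨a, ha, h2, h3⟩ := exists_left (fun t => h (-t)) (hc.comp continuous_neg) (-z₂) (-z₁)
    (neg_le_neg hz) (by simpa using h0) (by simpa using h1)
  refine ⟨-a, ⟨by linarith [ha.2], by linarith [ha.1]⟩, h2, fun t ht => ?_⟩
  have := h3 (-t) ⟨by linarith [ht.2], by linarith [ht.1]⟩
  simpa using this

end Pool.Agent.Helper54.SH
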