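import Pool.Agent.Helper54.SH.Defs

/-! # Top: the topological count

PLAN. Throughout `s = ±1`.
(1) every point `x` of the sphere is `pt (x 2) φ` for some `φ` (use `Complex.arg (x 0 + x 1 I)` or
`Complex.polarCoord`); `pt z φ` is on the sphere for `z ∈ [-1,1]`; `pt` is continuous on `[-1,1] × ℝ`.
(2) FIBRE LEMMA. `z ∈ [-1,1]`, `s u(pt z φ) > 0`, `s u(pt z φ') > 0` ⟹ there is `j : ℕ`, `j < k` (or `j : ℤ`) with
`pt z φ` and `pt z (φ' + 2πj/k)` joined by a path in `{s u > 0}` inside the sphere: shift both phases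
`kφ+α`, `kφ'+α` by multiples of `2π` into `[-π,π]` (if `s G z ≥ 0`) or `[0,2π]` (if `s G z < 0`) and move linearly
between them: there `s G cos` is quasi-concave, hence `s u ≥ min` of the end values.
(3) REACH LEMMA. `s u(pt z φ) > 0` and `uIcc z z' ⊆ {s f + |G| > 0}` (with `z, z' ∈ [-1,1]`) ⟹ `pt z φ` is joined in
`{s u > 0}` to some `pt z' φ'`. Proof: `P t t' :=` for all `φ` with `s u (pt t φ) > 0` there is `φ'` with
`s u (pt t' φ')>0` and joined, and the same with `t, t'` exchanged. Locally true: let `φc` be a crest at `t`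
(`s u(pt t φc) = s f t + |G t| > 0`); by continuity `s u(pt t' φc) > 0` for `t'` near `t`; combine the meridian segment at
longitude `φc + 2πj/k` with the fibre lemma (all `u(pt t (φ + 2πj/k)) = u(pt t φ)`). Then conclude along the segment
(`IsPreconnected.induction₂` if it exists, or a sup argument, or `IsClosed.Icc_subset_of_forall_exists_gt`).
(4) Hence every `x ∈ Dom u` (sign `s`, height `z`) is joined in `Dom u` to a point of height `p i`, `i ∈ S`
(from `hcov`), with `σ i = s`; at that height the positive set of `s u` has at most `k` classes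
(`pt (p i) (φ_i + 2πj/k)`, `j < k`, for one fixed `φ_i` at which `s u > 0`), and only one if `i ∉ T`
(`s u ≥ s f - |G| > 0` on the whole circle). So the finite family of representatives indexed by
`(i, j)`, `j < (if i ∈ T then k else 1)` surjects onto `ConnectedComponents (Dom u)`.
-/

set_option autoImplicit false

noncomputable section

namespace Pool.Agent.Helper54.SH

open Set

/-- two points lie in a common connected subset of the sphere minus the nodal set -/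
def Cn (u : (Fin 3 → ℝ) → ℝ) (x y : Fin 3 → ℝ) : Prop :=
  ∃ C : Set (Fin 3 → ℝ), IsPreconnected C ∧ (∀ t ∈ C, ∑ i : Fin 3, t i ^ 2 = 1 ∧ u t ≠ 0) ∧
    x ∈ C ∧ y ∈ C

theorem Cn.symm {u : (Fin 3 → ℝ) → ℝ} {x y : Fin 3 → ℝ} (h : Cn u x y) : Cn u y x := by
  obtain ⟨C, h1, h2, h3, h4⟩ := h
  exact ⟨C, h1, h2, h4, h3⟩

theorem Cn.trans {u : (Fin 3 → ℝ) → ℝ} {x y z : Fin 3 → ℝ} (h : Cn u x y) (h' : Cn u y z) :
    Cn u x z := by
  obtain ⟨C, h1, h2, h3, h4⟩ := h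
  obtain ⟨D, h5, h6, h7, h8⟩ := h'
  refine ⟨C ∪ D, h1.union y h4 h7 h5, ?_, Or.inl h3, Or.inr h8⟩
  rintro t (ht | ht)
  · exact h2 t ht
  · exact h6 t ht

theorem Cn.mk_eq {u : (Fin 3 → ℝ) → ℝ} {x y : Dom u} (h : Cn u x.1 y.1) :
    (x : ConnectedComponents (Dom u)) = y := by
  obtain ⟨C, h1, h2, h3, h4⟩ := h
  rw [ConnectedComponents.coe_eq_coe']
  have hpre : IsPreconnected (Subtype.val ⁻¹' C : Set (Dom u)) := by
    have himg : (Subtype.val '' (Subtype.val ⁻¹' C : Set (Dom u))) = C := by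
      ext t
      constructor
      · rintro ⟨w, hw, rfl⟩
        exact hw
      · intro ht
        exact ⟨⟨t, h2 t ht⟩, ht, rfl⟩
    have h5 : IsPreconnected (Subtype.val '' (Subtype.val ⁻¹' C : Set (Dom u))) := by
      rw [himg]; exact h1
    exact Topology.IsInducing.subtypeVal.isPreconnected_image.1 h5
  exact hpre.subset_connectedComponent (x := y) h4 h3

theorem pt_sphere {z : ℝ} (hz : z ∈ Icc (-1 : ℝ) 1) (φ : ℝ) : ∑ i : Fin 3, pt z φ i ^ 2 = 1 := by
  have h : (0 : ℝ) ≤ 1 - z ^ 2 := by nlinarith [hz.1, hz.2]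
  simp only [pt, Fin.sum_univ_three, Matrix.cons_val_zero, Matrix.cons_val_one, Matrix.cons_val]
  rw [mul_pow, mul_pow, Real.sq_sqrt h]
  nlinarith [Real.sin_sq_add_cos_sq φ]

theorem exists_pt {x : Fin 3 → ℝ} (hx : ∑ i : Fin 3, x i ^ 2 = 1) :
    x 2 ∈ Icc (-1 : ℝ) 1 ∧ ∃ φ, x = pt (x 2) φ := by
  rw [Fin.sum_univ_three] at hx
  have h0 : x 2 ∈ Icc (-1 : ℝ) 1 := by
    constructor <;> nlinarith [sq_nonneg (x 0), sq_nonneg (x 1)]
  refine ⟨h0, Complex.arg ⟨x 0, x 1⟩, ?_⟩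
  have h1 : ‖(⟨x 0, x 1⟩ : ℂ)‖ = √(1 - x 2 ^ 2) := by
    rw [Complex.norm_def, Complex.normSq_mk]
    congr 1
    nlinarith
  have h2 : x 0 = √(1 - x 2 ^ 2) * Real.cos (Complex.arg ⟨x 0, x 1⟩) := by
    rw [← h1, Complex.norm_mul_cos_arg]
  have h3 : x 1 = √(1 - x 2 ^ 2) * Real.sin (Complex.arg ⟨x 0, x 1⟩) := by
    rw [← h1, Complex.norm_mul_sin_arg]
  funext i
  fin_cases i
  · exact h2
  · exact h3
  · rfl

theorem continuous_pt : Continuous (fun q : ℝ × ℝ => pt q.1 q.2) := by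
  refine continuous_pi fun i => ?_
  fin_cases i
  · change Continuous (fun q : ℝ × ℝ => √(1 - q.1 ^ 2) * Real.cos q.2)
    fun_prop
  · change Continuous (fun q : ℝ × ℝ => √(1 - q.1 ^ 2) * Real.sin q.2)
    fun_prop
  · change Continuous (fun q : ℝ × ℝ => q.1)
    fun_prop

/-- moving along a circle of constant height -/
theorem cn_circle {u : (Fin 3 → ℝ) → ℝ} {z : ℝ} (hz : z ∈ Icc (-1 : ℝ) 1) {φ φ' : ℝ}
    (h : ∀ t ∈ uIcc φ φ', u (pt z t) ≠ 0) : Cn u (pt z φ) (pt z φ') := by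
  refine ⟨(fun t => pt z t) '' uIcc φ φ', ?_, ?_, ⟨φ, left_mem_uIcc, rfl⟩, ⟨φ', right_mem_uIcc, rfl⟩⟩
  · refine isPreconnected_uIcc.image _ ?_
    exact (continuous_pt.comp (by fun_prop : Continuous fun t : ℝ => (z, t))).continuousOn
  · rintro _ ⟨t, ht, rfl⟩
    exact ⟨pt_sphere hz t, h t ht⟩

/-- moving along a meridian -/
theorem cn_meridian {u : (Fin 3 → ℝ) → ℝ} {z z' : ℝ} (hz : z ∈ Icc (-1 : ℝ) 1)
    (hz' : z' ∈ Icc (-1 : ℝ) 1) {φ : ℝ}
    (h : ∀ t ∈ uIcc z z', u (pt t φ) ≠ 0) : Cn u (pt z φ) (pt z' φ) := by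
  refine ⟨(fun t => pt t φ) '' uIcc z z', ?_, ?_, ⟨z, left_mem_uIcc, rfl⟩, ⟨z', right_mem_uIcc, rfl⟩⟩
  · refine isPreconnected_uIcc.image _ ?_
    exact (continuous_pt.comp (by fun_prop : Continuous fun t : ℝ => (t, φ))).continuousOn
  · rintro _ ⟨t, ht, rfl⟩
    exact ⟨pt_sphere (uIcc_subset_Icc hz hz' ht) φ, h t ht⟩

theorem cos_quasi {X Y t : ℝ} (hX : |X| ≤ Real.pi) (hY : |Y| ≤ Real.pi) (ht : t ∈ uIcc X Y) :
    min (Real.cos X) (Real.cos Y) ≤ Real.cos t := by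
  have h1 : |t| ≤ max |X| |Y| := by
    rcases mem_uIcc.1 ht with ⟨h1, h2⟩ | ⟨h1, h2⟩
    · rw [abs_le]
      constructor
      · have := neg_abs_le X
        have := le_max_left |X| |Y|
        linarith
      · have := le_abs_self Y
        have := le_max_right |X| |Y|
        linarith
    · rw [abs_le]
      constructor
      · have := neg_abs_le Y
        have := le_max_right |X| |Y|
        linarith
      · have := le_abs_self X
        have := le_max_left |X| |Y|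
        linarith
  rw [← Real.cos_abs t]
  rcases le_total |X| |Y| with h | h
  · rw [max_eq_right h] at h1
    refine (min_le_right _ _).trans ?_
    rw [← Real.cos_abs Y]
    exact Real.cos_le_cos_of_nonneg_of_le_pi (abs_nonneg _) hY h1
  · rw [max_eq_left h] at h1
    refine (min_le_left _ _).trans ?_
    rw [← Real.cos_abs X]
    exact Real.cos_le_cos_of_nonneg_of_le_pi (abs_nonneg _) hX h1

theorem exists_shift (x : ℝ) : ∃ m : ℤ, |x - 2 * Real.pi * m| ≤ Real.pi := by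
  refine ⟨round (x / (2 * Real.pi)), ?_⟩
  have h := abs_sub_round (x / (2 * Real.pi))
  have hpi := Real.pi_pos
  have : x - 2 * Real.pi * (round (x / (2 * Real.pi)) : ℤ) =
      (2 * Real.pi) * (x / (2 * Real.pi) - round (x / (2 * Real.pi))) := by
    field_simp
  rw [this, abs_mul, abs_of_pos (by positivity)]
  nlinarith

/-- the fibre lemma -/
theorem fibre {k : ℕ} (hk : 1 ≤ k) {A B β : ℝ} (hB : 0 ≤ B) {φ φ' : ℝ}
    (h : 0 < A + B * Real.cos (k * φ + β)) (h' : 0 < A + B * Real.cos (k * φ' + β)) :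
    ∃ j : ℤ, ∀ t ∈ uIcc φ (φ' + 2 * Real.pi * j / k), 0 < A + B * Real.cos (k * t + β) := by
  obtain ⟨m, hm⟩ := exists_shift (k * φ + β)
  obtain ⟨n, hn⟩ := exists_shift (k * φ' + β)
  have hk0 : (0 : ℝ) < k := by exact_mod_cast hk
  refine ⟨m - n, fun t ht => ?_⟩
  have hc : ∀ x : ℝ, ∀ l : ℤ, Real.cos (x - 2 * Real.pi * l) = Real.cos x := by
    intro x l
    have := Real.cos_sub_int_mul_two_pi x l
    rw [← this]; ring_nf
  have ht' : (k * t + β - 2 * Real.pi * m) ∈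
      uIcc (k * φ + β - 2 * Real.pi * m) (k * φ' + β - 2 * Real.pi * n) := by
    have e1 : k * φ' + β - 2 * Real.pi * n =
        k * (φ' + 2 * Real.pi * ((m - n : ℤ) : ℝ) / k) + β - 2 * Real.pi * m := by
      push_cast
      field_simp
      ring
    rw [e1]
    rcases mem_uIcc.1 ht with ⟨h1, h2⟩ | ⟨h1, h2⟩
    · refine mem_uIcc.2 (Or.inl ⟨?_, ?_⟩)
      · nlinarith
      · nlinarith
    · refine mem_uIcc.2 (Or.inr ⟨?_, ?_⟩)
      · nlinarith
      · nlinarith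
  have hq := cos_quasi hm hn ht'
  rw [hc, hc, hc] at hq
  have h3 : B * min (Real.cos (k * φ + β)) (Real.cos (k * φ' + β)) ≤ B * Real.cos (k * t + β) :=
    mul_le_mul_of_nonneg_left hq hB
  rcases min_choice (Real.cos (k * φ + β)) (Real.cos (k * φ' + β)) with h4 | h4
  · rw [h4] at h3; linarith
  · rw [h4] at h3; linarith

section
variable {u : (Fin 3 → ℝ) → ℝ} {k : ℕ} {α : ℝ} {f G : ℝ → ℝ}

/-- at a fixed height the function is `s f + |G| cos (kφ + β)` -/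
theorem exists_phase (hform : ∀ z ∈ Icc (-1 : ℝ) 1, ∀ φ : ℝ, u (pt z φ) = f z + G z * Real.cos (k * φ + α))
    {s : ℝ} (hs : s = 1 ∨ s = -1) {z : ℝ} (hz : z ∈ Icc (-1 : ℝ) 1) :
    ∃ β : ℝ, ∀ φ : ℝ, s * u (pt z φ) = s * f z + |G z| * Real.cos (k * φ + β) := by
  rcases le_total 0 (s * G z) with h | h
  · refine ⟨α, fun φ => ?_⟩
    have h1 : |G z| = s * G z := by
      rw [← abs_of_nonneg h, abs_mul]
      rcases hs with rfl | rfl <;> simp
    rw [h1, hform z hz]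
    ring
  · refine ⟨α + Real.pi, fun φ => ?_⟩
    have h1 : |G z| = -(s * G z) := by
      rw [← abs_of_nonpos h, abs_mul]
      rcases hs with rfl | rfl <;> simp
    have h2 : Real.cos (k * φ + (α + Real.pi)) = -Real.cos (k * φ + α) := by
      rw [← add_assoc, Real.cos_add_pi]
    rw [h1, h2, hform z hz]
    ring

theorem rot_eq (hk : 1 ≤ k)
    (hform : ∀ z ∈ Icc (-1 : ℝ) 1, ∀ φ : ℝ, u (pt z φ) = f z + G z * Real.cos (k * φ + α))
    {z : ℝ} (hz : z ∈ Icc (-1 : ℝ) 1) (φ : ℝ) (j : ℤ) :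
    u (pt z (φ + 2 * Real.pi * j / k)) = u (pt z φ) := by
  have hk0 : (k : ℝ) ≠ 0 := by
    have : (0 : ℝ) < k := by exact_mod_cast hk
    exact this.ne'
  rw [hform z hz, hform z hz]
  have : (k : ℝ) * (φ + 2 * Real.pi * j / k) + α = (k * φ + α) + j * (2 * Real.pi) := by
    field_simp
    ring
  rw [this, Real.cos_add_int_mul_two_pi]

theorem pos_ne {s a : ℝ} (h : 0 < s * a) : a ≠ 0 := by
  rintro rfl
  simp at h

theorem cn_fibre (hk : 1 ≤ k)
    (hform : ∀ z ∈ Icc (-1 : ℝ) 1, ∀ φ : ℝ, u (pt z φ) = f z + G z * Real.cos (k * φ + α))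
    {s : ℝ} (hs : s = 1 ∨ s = -1) {z : ℝ} (hz : z ∈ Icc (-1 : ℝ) 1) {φ φ' : ℝ}
    (h : 0 < s * u (pt z φ)) (h' : 0 < s * u (pt z φ')) :
    ∃ j : ℤ, Cn u (pt z φ) (pt z (φ' + 2 * Real.pi * j / k)) := by
  obtain ⟨β, hβ⟩ := exists_phase hform hs hz
  rw [hβ] at h h'
  obtain ⟨j, hj⟩ := fibre hk (abs_nonneg _) h h'
  refine ⟨j, cn_circle hz fun t ht => ?_⟩
  have := hj t ht
  rw [← hβ] at this
  exact pos_ne this

theorem exists_crest (hk : 1 ≤ k)
    (hform : ∀ z ∈ Icc (-1 : ℝ) 1, ∀ φ : ℝ, u (pt z φ) = f z + G z * Real.cos (k * φ + α))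
    {s : ℝ} (hs : s = 1 ∨ s = -1) {z : ℝ} (hz : z ∈ Icc (-1 : ℝ) 1) :
    ∃ φ, s * u (pt z φ) = s * f z + |G z| := by
  obtain ⟨β, hβ⟩ := exists_phase hform hs hz
  have hk0 : (k : ℝ) ≠ 0 := by
    have : (0 : ℝ) < k := by exact_mod_cast hk
    exact this.ne'
  refine ⟨-β / k, ?_⟩
  rw [hβ]
  have : (k : ℝ) * (-β / k) + β = 0 := by
    field_simp
    ring
  rw [this, Real.cos_zero, mul_one]

/-- one can move from height `z` to height `z'` inside `{s u > 0}` -/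
def Rch (u : (Fin 3 → ℝ) → ℝ) (s z z' : ℝ) : Prop :=
  ∀ φ, 0 < s * u (pt z φ) → ∃ φ', 0 < s * u (pt z' φ') ∧ Cn u (pt z φ) (pt z' φ')

theorem reach_local (hu : Continuous u) (hk : 1 ≤ k)
    (hform : ∀ z ∈ Icc (-1 : ℝ) 1, ∀ φ : ℝ, u (pt z φ) = f z + G z * Real.cos (k * φ + α))
    {s : ℝ} (hs : s = 1 ∨ s = -1) {z : ℝ} (hz : z ∈ Icc (-1 : ℝ) 1) (hpos : 0 < s * f z + |G z|) :
    ∃ ε > 0, ∀ z' ∈ Icc (-1 : ℝ) 1, |z' - z| < ε → Rch u s z z' ∧ Rch u s z' z := by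
  obtain ⟨φc, hc⟩ := exists_crest (u := u) hk hform hs hz
  have hcont : Continuous (fun t : ℝ => s * u (pt t φc)) :=
    continuous_const.mul
      (hu.comp (continuous_pt.comp (by fun_prop : Continuous fun t : ℝ => (t, φc))))
  have hopen : ∀ᶠ t in nhds z, 0 < s * u (pt t φc) := by
    refine hcont.continuousAt.eventually (lt_mem_nhds ?_)
    change 0 < s * u (pt z φc)
    rw [hc]; exact hpos
  rw [Metric.eventually_nhds_iff] at hopen
  obtain ⟨ε, hε, hball⟩ := hopen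
  refine ⟨ε, hε, fun z' hz' hd => ?_⟩
  have hseg : ∀ t ∈ uIcc z z', 0 < s * u (pt t φc) := by
    intro t ht
    apply hball
    rw [Real.dist_eq]
    exact (abs_sub_left_of_mem_uIcc ht).trans_lt hd
  have hmer : ∀ j : ℤ, Cn u (pt z (φc + 2 * Real.pi * j / k)) (pt z' (φc + 2 * Real.pi * j / k)) := by
    intro j
    refine cn_meridian hz hz' fun t ht => ?_
    rw [rot_eq hk hform (uIcc_subset_Icc hz hz' ht)]
    exact pos_ne (hseg t ht)
  have hz0 : 0 < s * u (pt z φc) := hseg z left_mem_uIcc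
  have hz0' : 0 < s * u (pt z' φc) := hseg z' right_mem_uIcc
  constructor
  · intro φ hφ
    obtain ⟨j, hj⟩ := cn_fibre hk hform hs hz hφ hz0
    refine ⟨φc + 2 * Real.pi * j / k, ?_, hj.trans (hmer j)⟩
    rw [rot_eq hk hform hz']; exact hz0'
  · intro φ hφ
    obtain ⟨j, hj⟩ := cn_fibre hk hform hs hz' hφ hz0'
    refine ⟨φc + 2 * Real.pi * j / k, ?_, hj.trans (hmer j).symm⟩
    rw [rot_eq hk hform hz]; exact hz0

theorem reach (hu : Continuous u) (hk : 1 ≤ k)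
    (hform : ∀ z ∈ Icc (-1 : ℝ) 1, ∀ φ : ℝ, u (pt z φ) = f z + G z * Real.cos (k * φ + α))
    {s : ℝ} (hs : s = 1 ∨ s = -1) {z z' : ℝ} (hz : z ∈ Icc (-1 : ℝ) 1) (hz' : z' ∈ Icc (-1 : ℝ) 1)
    (hpos : ∀ t ∈ uIcc z z', 0 < s * f t + |G t|) : Rch u s z z' := by
  refine (isPreconnected_uIcc (a := z) (b := z')).induction₂' (fun x y => Rch u s x y) ?_ ?_
    left_mem_uIcc right_mem_uIcc
  · intro x hx
    have hx' := uIcc_subset_Icc hz hz' hx
    obtain ⟨ε, hε, h⟩ := reach_local hu hk hform hs hx' (hpos x hx)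
    rw [Filter.Eventually, mem_nhdsWithin_iff_exists_mem_nhds_inter]
    refine ⟨Metric.ball x ε, Metric.ball_mem_nhds x hε, ?_⟩
    rintro y ⟨hy, hy'⟩
    exact h y (uIcc_subset_Icc hz hz' hy') (by simpa [Real.dist_eq] using hy)
  · intro x y w _ _ _ h1 h2 φ hφ
    obtain ⟨φ', h3, h4⟩ := h1 φ hφ
    obtain ⟨φ'', h5, h6⟩ := h2 φ' h3
    exact ⟨φ'', h5, h4.trans h6⟩

end

theorem pt_mod {k : ℕ} (hk : 1 ≤ k) (z φ : ℝ) (j : ℤ) :
    pt z (φ + 2 * Real.pi * j / k) = pt z (φ + 2 * Real.pi * ((j % (k : ℤ)).toNat : ℕ) / k) := by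
  have hk0 : (k : ℝ) ≠ 0 := by
    have : (0 : ℝ) < k := by exact_mod_cast hk
    exact this.ne'
  have h1 : ((j % (k : ℤ)).toNat : ℤ) = j % (k : ℤ) :=
    Int.toNat_of_nonneg (Int.emod_nonneg _ (by omega))
  have h2 : ((((j % (k : ℤ)).toNat : ℕ) : ℤ) : ℝ) = (((j % (k : ℤ)) : ℤ) : ℝ) := by rw [h1]
  have h3 : (j : ℝ) = ((j % (k : ℤ) : ℤ) : ℝ) + (k : ℝ) * ((j / (k : ℤ) : ℤ) : ℝ) := by
    have := Int.emod_add_mul_ediv j (k : ℤ)
    exact_mod_cast this.symm
  have h4 : φ + 2 * Real.pi * j / k =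
      (φ + 2 * Real.pi * ((j % (k : ℤ)).toNat : ℕ) / k) + (j / (k : ℤ) : ℤ) * (2 * Real.pi) := by
    have h5 : (((j % (k : ℤ)).toNat : ℕ) : ℝ) = ((j % (k : ℤ) : ℤ) : ℝ) := by
      rw [← h2]; push_cast; rfl
    rw [h5, h3]
    field_simp
    ring
  rw [h4]
  simp only [pt, Real.cos_add_int_mul_two_pi, Real.sin_add_int_mul_two_pi]

theorem top_count (u : (Fin 3 → ℝ) → ℝ) (hu : Continuous u) (k : ℕ) (hk : 1 ≤ k) (α : ℝ)
    (f G : ℝ → ℝ) (hf : ContinuousOn f (Icc (-1) 1)) (hG : ContinuousOn G (Icc (-1) 1))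
    (hform : ∀ z ∈ Icc (-1 : ℝ) 1, ∀ φ : ℝ, u (pt z φ) = f z + G z * Real.cos (k * φ + α))
    (S T : Finset ℕ) (hTS : T ⊆ S) (σ p : ℕ → ℝ)
    (hσ : ∀ i ∈ S, σ i = 1 ∨ σ i = -1) (hp : ∀ i ∈ S, p i ∈ Icc (-1 : ℝ) 1)
    (hcov : ∀ s : ℝ, (s = 1 ∨ s = -1) → ∀ z ∈ Icc (-1 : ℝ) 1, 0 < s * f z + |G z| →
      ∃ i ∈ S, σ i = s ∧ ∀ t ∈ uIcc z (p i), 0 < s * f t + |G t|)
    (hT : ∀ i ∈ S, i ∉ T → |G (p i)| < σ i * f (p i)) :
    Finite (ConnectedComponents (Dom u)) ∧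
      Nat.card (ConnectedComponents (Dom u)) ≤ k * T.card + (S.card - T.card) := by
  classical
  -- crests at the heights `p i`
  have hcr : ∀ i : ℕ, ∃ φ, i ∈ S → σ i * u (pt (p i) φ) = σ i * f (p i) + |G (p i)| := by
    intro i
    by_cases hi : i ∈ S
    · obtain ⟨φ, h⟩ := exists_crest (u := u) hk hform (hσ i hi) (hp i hi)
      exact ⟨φ, fun _ => h⟩
    · exact ⟨0, fun h => absurd h hi⟩
  choose ψ hψ using hcr
  let I : Finset (Σ _ : ℕ, ℕ) := S.sigma (fun i => Finset.range (if i ∈ T then k else 1))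
  have hIcard : I.card = k * T.card + (S.card - T.card) := by
    rw [Finset.card_sigma]
    simp only [Finset.card_range]
    rw [Finset.sum_ite, Finset.sum_const, Finset.sum_const]
    have h1 : S.filter (fun i => i ∈ T) = T := by
      ext i
      simp only [Finset.mem_filter]
      exact ⟨fun h => h.2, fun h => ⟨hTS h, h⟩⟩
    have h2 : S.filter (fun i => i ∉ T) = S \ T := by
      ext i
      simp
    rw [h1, h2, Finset.card_sdiff_of_subset hTS]
    simp [mul_comm]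
  have key : ∀ x : Dom u, ∃ q ∈ I,
      Cn u x.1 (pt (p q.1) (ψ q.1 + 2 * Real.pi * (q.2 : ℕ) / k)) := by
    intro x
    obtain ⟨hz, φ, hφ⟩ := exists_pt x.2.1
    obtain ⟨s, hs, hsu⟩ : ∃ s : ℝ, (s = 1 ∨ s = -1) ∧ 0 < s * u x.1 := by
      rcases lt_or_gt_of_ne x.2.2 with h | h
      · exact ⟨-1, Or.inr rfl, by linarith⟩
      · exact ⟨1, Or.inl rfl, by linarith⟩
    rw [hφ] at hsu
    have hh : 0 < s * f (x.1 2) + |G (x.1 2)| := by
      obtain ⟨β, hβ⟩ := exists_phase hform hs hz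
      rw [hβ] at hsu
      have h1 : |G (x.1 2)| * Real.cos (k * φ + β) ≤ |G (x.1 2)| * 1 :=
        mul_le_mul_of_nonneg_left (Real.cos_le_one _) (abs_nonneg _)
      linarith
    obtain ⟨i, hi, hsi, hseg⟩ := hcov s hs _ hz hh
    obtain ⟨φ', h1, h2⟩ := reach hu hk hform hs hz (hp i hi) hseg φ hsu
    have hcrest : 0 < s * u (pt (p i) (ψ i)) := by
      have h3 := hψ i hi
      rw [hsi] at h3
      rw [h3]
      exact hseg _ right_mem_uIcc
    by_cases hiT : i ∈ T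
    · obtain ⟨j, hj⟩ := cn_fibre hk hform hs (hp i hi) h1 hcrest
      rw [pt_mod hk] at hj
      refine ⟨⟨i, (j % (k : ℤ)).toNat⟩, ?_, ?_⟩
      · simp only [I, Finset.mem_sigma, Finset.mem_range, hi, hiT, if_true, true_and]
        have := Int.emod_lt_of_pos j (show (0 : ℤ) < k by omega)
        omega
      · rw [hφ]
        exact h2.trans hj
    · refine ⟨⟨i, 0⟩, ?_, ?_⟩
      · simp [I, hi, hiT]
      · rw [hφ]
        have h4 := hT i hi hiT
        rw [hsi] at h4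
        have h5 : Cn u (pt (p i) φ') (pt (p i) (ψ i)) := by
          refine cn_circle (hp i hi) fun t ht => ?_
          obtain ⟨β, hβ⟩ := exists_phase hform hs (hp i hi)
          apply pos_ne (s := s)
          rw [hβ]
          have h6 : |G (p i)| * (-1) ≤ |G (p i)| * Real.cos (k * t + β) :=
            mul_le_mul_of_nonneg_left (Real.neg_one_le_cos _) (abs_nonneg _)
          linarith
        have h7 : ψ i + 2 * Real.pi * ((0 : ℕ) : ℝ) / k = ψ i := by simp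
        change Cn u _ (pt (p i) (ψ i + 2 * Real.pi * ((0 : ℕ) : ℝ) / k))
        rw [h7]
        exact h2.trans h5
  choose Φ hΦ1 hΦ2 using key
  let F : ConnectedComponents (Dom u) → I := fun c => ⟨Φ (Quotient.out c), hΦ1 _⟩
  have hF : Function.Injective F := by
    intro c c' h
    have h1 : Φ (Quotient.out c) = Φ (Quotient.out c') := congrArg Subtype.val h
    have h2 := hΦ2 (Quotient.out c)
    have h3 := hΦ2 (Quotient.out c')
    rw [← h1] at h3
    have h4 := Cn.mk_eq (h2.trans h3.symm)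
    have e1 : ((Quotient.out c : Dom u) : ConnectedComponents (Dom u)) = c := Quotient.out_eq c
    have e2 : ((Quotient.out c' : Dom u) : ConnectedComponents (Dom u)) = c' := Quotient.out_eq c'
    rw [e1, e2] at h4
    exact h4
  refine ⟨Finite.of_injective F hF, ?_⟩
  have h5 := Nat.card_le_card_of_injective F hF
  rw [← hIcard]
  simpa using h5

end Pool.Agent.Helper54.SH
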